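import Pool.Agent.Helper1K1.AF.Lagr

/-!
An ideal which contains the binomials `z_k ^ m - z_0 ^ (m - 1) z_k` (`k ≥ 1`) and
`z_0 ^ (m - 2) ∑ A_k z_k ^ 2`, for suitable weights `A_k`, contains all monomials of degree
`(N + 1) (m - 1)` in the variables `z_0, ..., z_N` except the power of `z_0`.
-/

set_option autoImplicit false

namespace Pool.Agent.Helper1K1.AF

open MvPolynomial

variable {N : ℕ}

/-- the product of the `ee` -/
noncomputable def EE (m : ℕ) (θ : Fin N → ℂ) : MvPolynomial (Fin (N + 1)) ℂ :=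
  ∏ k, ee m (θ k) k

/-- the product of the `ee` without the factor `k` -/
noncomputable def EEk (m : ℕ) (θ : Fin N → ℂ) (k : Fin N) : MvPolynomial (Fin (N + 1)) ℂ :=
  ∏ l ∈ Finset.univ.erase k, ee m (θ l) l

lemma ee_mul_EEk (m : ℕ) (θ : Fin N → ℂ) (k : Fin N) : ee m (θ k) k * EEk m θ k = EE m θ := by
  unfold EE EEk
  exact Finset.mul_prod_erase Finset.univ (fun l => ee m (θ l) l) (Finset.mem_univ k)

lemma mk_ee {m : ℕ} (hm : 2 ≤ m) {θ : ℂ} (hθ : θ ∈ Th m) (k : Fin N) :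
    Ideal.Quotient.mk (Ideal.span {(X 0 : MvPolynomial (Fin (N + 1)) ℂ)}) (ee m θ k) =
      Ideal.Quotient.mk (Ideal.span {(X 0 : MvPolynomial (Fin (N + 1)) ℂ)}) (X k.succ) ^ (m - 1) := by
  have h0 : Ideal.Quotient.mk (Ideal.span {(X 0 : MvPolynomial (Fin (N + 1)) ℂ)}) (X 0) = 0 := by
    rw [Ideal.Quotient.eq_zero_iff_mem]
    exact Ideal.mem_span_singleton_self _
  unfold ee
  rw [map_prod]
  simp only [map_sub, map_mul, h0, mul_zero, sub_zero]
  rw [Finset.prod_const, Finset.card_erase_of_mem hθ, card_Th hm]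

lemma X_dvd_of_mk {p q : MvPolynomial (Fin (N + 1)) ℂ}
    (h : Ideal.Quotient.mk (Ideal.span {(X 0 : MvPolynomial (Fin (N + 1)) ℂ)}) p =
      Ideal.Quotient.mk (Ideal.span {(X 0 : MvPolynomial (Fin (N + 1)) ℂ)}) q) :
    ∃ g, p - q = X 0 * g := by
  rw [Ideal.Quotient.eq, Ideal.mem_span_singleton] at h
  exact h

lemma step1 {m : ℕ} (hm : 2 ≤ m) (A : Fin N → ℂ) (J : Ideal (MvPolynomial (Fin (N + 1)) ℂ))
    (hG : ∀ k, GG m k ∈ J) (hQ : X 0 ^ (m - 2) * ∑ k : Fin N, C (A k) * X k.succ ^ 2 ∈ J)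
    (θ : Fin N → ℂ) (hθ : ∀ k, θ k ∈ Th m) (hne : ∑ k, A k * θ k ^ 2 ≠ 0) :
    X 0 ^ (m - 1) * EE m θ ∈ J := by
  set φ := Ideal.Quotient.mk (Ideal.span {(X 0 : MvPolynomial (Fin (N + 1)) ℂ)}) with hφ
  have h0 : φ (X 0) = 0 := by
    rw [Ideal.Quotient.eq_zero_iff_mem]
    exact Ideal.mem_span_singleton_self _
  obtain ⟨g, hg⟩ : ∃ g, EE m θ - EE m (fun _ : Fin N => (0 : ℂ)) = X 0 * g := by
    apply X_dvd_of_mk
    unfold EE
    rw [map_prod, map_prod]
    apply Finset.prod_congr rfl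
    intro k _
    rw [mk_ee hm (hθ k), mk_ee hm (zero_mem_Th m)]
  have hh : ∀ k, ∃ h, (X k.succ + C (θ k) * X 0) * EEk m θ k -
      X k.succ * EEk m (fun _ : Fin N => (0 : ℂ)) k = X 0 * h := by
    intro k
    apply X_dvd_of_mk
    have e1 : ∀ θ' : Fin N → ℂ, (∀ k, θ' k ∈ Th m) → φ (EEk m θ' k) =
        ∏ l ∈ Finset.univ.erase k, φ (X l.succ) ^ (m - 1) := by
      intro θ' hθ'
      unfold EEk
      rw [map_prod]
      apply Finset.prod_congr rfl
      intro l _
      exact mk_ee hm (hθ' l) l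
    rw [← hφ, map_mul, map_mul, e1 θ hθ, e1 _ (fun _ => zero_mem_Th m), map_add, map_mul, h0,
      mul_zero, add_zero]
  choose h hh using hh
  have key : (∑ k : Fin N, C (A k) * X k.succ ^ 2) * (EE m θ - EE m (fun _ : Fin N => (0 : ℂ))) -
      C (∑ k, A k * θ k ^ 2) * X 0 ^ 2 * EE m θ =
      ∑ k : Fin N, C (A k) * GG m k * (X 0 * h k) := by
    have e1 : ∀ k : Fin N, C (A k) * GG m k * (X 0 * h k) =
        C (A k) * X k.succ ^ 2 * (EE m θ - EE m (fun _ : Fin N => (0 : ℂ))) -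
        C (A k * θ k ^ 2) * (X 0 ^ 2 * EE m θ) := by
      intro k
      rw [← hh k, ← ee_mul_EEk m θ k, ← ee_mul_EEk m (fun _ : Fin N => (0 : ℂ)) k]
      have h1 := mul_ee hm (hθ k) k
      have h2 := mul_ee hm (zero_mem_Th m) k
      rw [map_zero, zero_mul, sub_zero] at h2
      rw [map_mul, map_pow]
      linear_combination (-(C (A k) * (X k.succ + C (θ k) * X 0) * EEk m θ k)) * h1 +
        (C (A k) * X k.succ * EEk m (fun _ : Fin N => (0 : ℂ)) k) * h2
    rw [Finset.sum_congr rfl fun k _ => e1 k, Finset.sum_sub_distrib, ← Finset.sum_mul,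
      ← Finset.sum_mul, ← map_sum]
    ring
  have key2 : (∑ k : Fin N, C (A k) * X k.succ ^ 2) * g -
      C (∑ k, A k * θ k ^ 2) * X 0 * EE m θ = ∑ k : Fin N, C (A k) * GG m k * h k := by
    have hX : (X 0 : MvPolynomial (Fin (N + 1)) ℂ) ≠ 0 := X_ne_zero 0
    apply mul_left_cancel₀ hX
    rw [hg] at key
    rw [Finset.mul_sum]
    have e2 : ∀ k : Fin N, X 0 * (C (A k) * GG m k * h k) = C (A k) * GG m k * (X 0 * h k) :=
      fun k => by ring
    rw [Finset.sum_congr rfl fun k _ => e2 k, ← key]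
    ring
  have key3 : C (∑ k, A k * θ k ^ 2) * (X 0 ^ (m - 1) * EE m θ) ∈ J := by
    have e3 : C (∑ k, A k * θ k ^ 2) * (X 0 ^ (m - 1) * EE m θ) =
        (X 0 ^ (m - 2) * ∑ k : Fin N, C (A k) * X k.succ ^ 2) * g -
        X 0 ^ (m - 2) * ∑ k : Fin N, C (A k) * GG m k * h k := by
      rw [← key2]
      have : (X 0 : MvPolynomial (Fin (N + 1)) ℂ) ^ (m - 1) = X 0 ^ (m - 2) * X 0 := by
        rw [← pow_succ]; congr 1; omega
      rw [this]
      ring
    rw [e3]
    refine Ideal.sub_mem _ (Ideal.mul_mem_right _ _ hQ) (Ideal.mul_mem_left _ _ ?_)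
    refine Ideal.sum_mem _ fun k _ => Ideal.mul_mem_right _ _ (Ideal.mul_mem_left _ _ (hG k))
  have h4 := Ideal.mul_mem_left J (C (∑ k, A k * θ k ^ 2)⁻¹) key3
  rwa [← mul_assoc, ← map_mul, inv_mul_cancel₀ hne, map_one, one_mul] at h4

lemma step3 {m : ℕ} (hm : 2 ≤ m) (J : Ideal (MvPolynomial (Fin (N + 1)) ℂ))
    (hE : ∀ θ : Fin N → ℂ, (∀ k, θ k ∈ Th m) → θ ≠ 0 → X 0 ^ (m - 1) * EE m θ ∈ J)
    (β : Fin N → ℕ) (hβ : ∀ k, β k < m) (hβ0 : β ≠ 0) :
    X 0 ^ (m - 1) * ∏ k : Fin N, (X k.succ ^ β k * X 0 ^ (m - 1 - β k)) ∈ J := by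
  have h1 : ∏ k : Fin N, (X k.succ ^ β k * X 0 ^ (m - 1 - β k) : MvPolynomial (Fin (N + 1)) ℂ) =
      ∑ θ ∈ Fintype.piFinset (fun _ : Fin N => Th m),
        ∏ k, (C (cTh m (θ k) * θ k ^ β k) * ee m (θ k) k) := by
    rw [← Finset.prod_univ_sum (fun _ : Fin N => Th m)
      (fun k θ => (C (cTh m θ * θ ^ β k) * ee m θ k : MvPolynomial (Fin (N + 1)) ℂ))]
    apply Finset.prod_congr rfl
    intro k _
    exact lagrange_hom hm (β k) (hβ k) k
  rw [h1, Finset.mul_sum]
  refine Ideal.sum_mem _ fun θ hθ => ?_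
  rw [Fintype.mem_piFinset] at hθ
  rw [Finset.prod_mul_distrib]
  by_cases h0 : θ = 0
  · obtain ⟨k, hk⟩ : ∃ k, β k ≠ 0 := by
      by_contra hcon
      push Not at hcon
      exact hβ0 (funext hcon)
    have : ∏ k, (C (cTh m (θ k) * θ k ^ β k) : MvPolynomial (Fin (N + 1)) ℂ) = 0 := by
      apply Finset.prod_eq_zero (Finset.mem_univ k)
      rw [h0, Pi.zero_apply, zero_pow hk, mul_zero, map_zero]
    rw [this, zero_mul, mul_zero]
    exact Ideal.zero_mem _
  · rw [mul_left_comm]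
    exact Ideal.mul_mem_left _ _ (hE θ hθ h0)

/-- all monomials of degree `(N + 1) (m - 1)` except the power of `z_0` are in the ideal. -/
lemma monomial_mem {m : ℕ} (hm : 2 ≤ m) (A : Fin N → ℂ) (J : Ideal (MvPolynomial (Fin (N + 1)) ℂ))
    (hG : ∀ k, GG m k ∈ J) (hQ : X 0 ^ (m - 2) * ∑ k : Fin N, C (A k) * X k.succ ^ 2 ∈ J)
    (hA : ∀ θ : Fin N → ℂ, (∀ k, θ k ∈ Th m) → θ ≠ 0 → ∑ k, A k * θ k ^ 2 ≠ 0) :
    ∀ (s : ℕ) (a : ℕ) (β : Fin N → ℕ), ∑ k, β k = s → a + s = (N + 1) * (m - 1) → β ≠ 0 →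
      X 0 ^ a * ∏ k : Fin N, X k.succ ^ β k ∈ J := by
  intro s
  induction s using Nat.strong_induction_on with
  | _ s ih =>
    intro a β hs ha hβ0
    by_cases hβ : ∀ k, β k < m
    · have h1 := step3 hm J (fun θ hθ h0 => step1 hm A J hG hQ θ hθ (hA θ hθ h0)) β hβ hβ0
      convert h1 using 1
      rw [Finset.prod_mul_distrib, Finset.prod_pow_eq_pow_sum]
      have h2 : ∑ k : Fin N, (m - 1 - β k) + s = N * (m - 1) := by
        rw [← hs, ← Finset.sum_add_distrib]
        have : ∀ k : Fin N, m - 1 - β k + β k = m - 1 := fun k => by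
          have := hβ k; omega
        rw [Finset.sum_congr rfl fun k _ => this k]
        simp
      have h3 : a = (m - 1) + ∑ k : Fin N, (m - 1 - β k) := by
        have : (N + 1) * (m - 1) = N * (m - 1) + (m - 1) := by ring
        omega
      rw [h3, pow_add]
      ring
    · push Not at hβ
      obtain ⟨k, hk⟩ := hβ
      set β' : Fin N → ℕ := Function.update β k (β k - (m - 1)) with hβ'
      have e1 : ∏ l : Fin N, (X l.succ : MvPolynomial (Fin (N + 1)) ℂ) ^ β l =
          X k.succ ^ β k * ∏ l ∈ Finset.univ.erase k, X l.succ ^ β l :=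
        (Finset.mul_prod_erase Finset.univ _ (Finset.mem_univ k)).symm
      have e2 : ∏ l : Fin N, (X l.succ : MvPolynomial (Fin (N + 1)) ℂ) ^ β' l =
          X k.succ ^ (β k - (m - 1)) * ∏ l ∈ Finset.univ.erase k, X l.succ ^ β l := by
        rw [← Finset.mul_prod_erase Finset.univ _ (Finset.mem_univ k), hβ', Function.update_self]
        congr 1
        apply Finset.prod_congr rfl
        intro l hl
        rw [Function.update_of_ne (Finset.ne_of_mem_erase hl)]
      have s1 : ∑ l, β' l + (m - 1) = s := by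
        rw [← hs, ← Finset.add_sum_erase Finset.univ β (Finset.mem_univ k),
          ← Finset.add_sum_erase Finset.univ β' (Finset.mem_univ k), hβ', Function.update_self]
        have : ∑ x ∈ Finset.univ.erase k, Function.update β k (β k - (m - 1)) x =
            ∑ x ∈ Finset.univ.erase k, β x := by
          apply Finset.sum_congr rfl
          intro l hl
          rw [Function.update_of_ne (Finset.ne_of_mem_erase hl)]
        rw [this]
        omega
      have h1 := ih (∑ l, β' l) (by omega) (a + (m - 1)) β' rfl (by omega) (by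
        intro h
        have := congrFun h k
        rw [hβ', Function.update_self, Pi.zero_apply] at this
        omega)
      have h2 := Ideal.mul_mem_left J (X 0 ^ a * X k.succ ^ (β k - m) *
        ∏ l ∈ Finset.univ.erase k, X l.succ ^ β l) (hG k)
      have h3 := Ideal.add_mem _ h1 h2
      convert h3 using 1
      rw [e1, e2]
      unfold GG
      have p1 : (X k.succ : MvPolynomial (Fin (N + 1)) ℂ) ^ β k = X k.succ ^ (β k - m) * X k.succ ^ m := by
        rw [← pow_add]; congr 1; omega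
      have p2 : (X k.succ : MvPolynomial (Fin (N + 1)) ℂ) ^ (β k - (m - 1)) =
          X k.succ ^ (β k - m) * X k.succ := by
        rw [← pow_succ]; congr 1; omega
      rw [p1, p2, pow_add]
      ring

/-- the weights `2 ^ k` are suitable. -/
lemma weights {m : ℕ} (hm : 2 ≤ m) (θ : Fin N → ℂ) (hθ : ∀ k, θ k ∈ Th m) (h0 : θ ≠ 0) :
    ∑ k : Fin N, (2 : ℂ) ^ (k : ℕ) * θ k ^ 2 ≠ 0 := by
  classical
  intro hsum
  have hne : (Finset.univ.filter fun k : Fin N => θ k ≠ 0).Nonempty := by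
    by_contra hcon
    rw [Finset.not_nonempty_iff_eq_empty, Finset.filter_eq_empty_iff] at hcon
    apply h0
    funext k
    have := hcon (Finset.mem_univ k)
    push Not at this
    exact this
  set K := (Finset.univ.filter fun k : Fin N => θ k ≠ 0).max' hne with hK
  have hK0 : θ K ≠ 0 := by
    have := Finset.max'_mem _ hne
    rw [← hK] at this
    exact (Finset.mem_filter.1 this).2
  have hgt : ∀ k : Fin N, K < k → θ k = 0 := by
    intro k hk
    by_contra hcon
    have := Finset.le_max' (Finset.univ.filter fun k : Fin N => θ k ≠ 0) k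
      (Finset.mem_filter.2 ⟨Finset.mem_univ _, hcon⟩)
    rw [← hK] at this
    exact absurd this (not_le.2 hk)
  have hnorm : ∀ k, ‖θ k‖ ≤ 1 := by
    intro k
    by_cases h : θ k = 0
    · rw [h, norm_zero]; exact zero_le_one
    · exact (norm_of_mem_Th hm (hθ k) h).le
  have e1 : (2 : ℂ) ^ (K : ℕ) * θ K ^ 2 =
      - ∑ k ∈ Finset.univ.filter (fun k : Fin N => k < K), (2 : ℂ) ^ (k : ℕ) * θ k ^ 2 := by
    have h1 : ∑ k : Fin N, (2 : ℂ) ^ (k : ℕ) * θ k ^ 2 =
        (2 : ℂ) ^ (K : ℕ) * θ K ^ 2 +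
          ∑ k ∈ Finset.univ.filter (fun k : Fin N => k < K), (2 : ℂ) ^ (k : ℕ) * θ k ^ 2 := by
      rw [← Finset.add_sum_erase Finset.univ _ (Finset.mem_univ K)]
      congr 1
      symm
      apply Finset.sum_subset
      · intro k hk
        rw [Finset.mem_filter] at hk
        exact Finset.mem_erase.2 ⟨hk.2.ne, Finset.mem_univ _⟩
      · intro k hk hk2
        rw [Finset.mem_erase] at hk
        have : K < k := by
          rcases lt_trichotomy k K with h | h | h
          · exact absurd (Finset.mem_filter.2 ⟨Finset.mem_univ k, h⟩) hk2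
          · exact absurd h hk.1
          · exact h
        rw [hgt k this]
        ring
    rw [h1] at hsum
    linear_combination hsum
  have e2 := congrArg norm e1
  rw [norm_neg, norm_mul, norm_pow, norm_pow, norm_of_mem_Th hm (hθ K) hK0, one_pow, mul_one] at e2
  have e3 : ‖∑ k ∈ Finset.univ.filter (fun k : Fin N => k < K), (2 : ℂ) ^ (k : ℕ) * θ k ^ 2‖ ≤
      ∑ k ∈ Finset.univ.filter (fun k : Fin N => k < K), (2 : ℝ) ^ (k : ℕ) := by
    refine (norm_sum_le _ _).trans (Finset.sum_le_sum fun k _ => ?_)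
    rw [norm_mul, norm_pow, norm_pow]
    have := hnorm k
    have h2 : ‖(2 : ℂ)‖ = 2 := by simp
    rw [h2]
    have h3 : ‖θ k‖ ^ 2 ≤ 1 := pow_le_one₀ (norm_nonneg _) this
    have h4 : (0 : ℝ) ≤ 2 ^ (k : ℕ) := by positivity
    nlinarith
  have e4 : ∑ k ∈ Finset.univ.filter (fun k : Fin N => k < K), (2 : ℝ) ^ (k : ℕ) ≤
      ∑ j ∈ Finset.range (K : ℕ), (2 : ℝ) ^ j := by
    rw [← Finset.sum_image (s := Finset.univ.filter (fun k : Fin N => k < K))
      (g := fun k : Fin N => (k : ℕ)) (f := fun j => (2 : ℝ) ^ j)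
      (fun x _ y _ h => Fin.ext h)]
    apply Finset.sum_le_sum_of_subset_of_nonneg
    · intro j hj
      rw [Finset.mem_image] at hj
      obtain ⟨k, hk, rfl⟩ := hj
      rw [Finset.mem_filter] at hk
      exact Finset.mem_range.2 hk.2
    · intro i _ _
      positivity
  have e5 : ∑ j ∈ Finset.range (K : ℕ), (2 : ℝ) ^ j = 2 ^ (K : ℕ) - 1 := by
    rw [geom_sum_eq (by norm_num)]
    norm_num
  have h2 : ‖(2 : ℂ)‖ = 2 := by simp
  rw [h2] at e2
  linarith

end Pool.Agent.Helper1K1.AF
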