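import Pool.Agent.Helper1K1.AF.Param

/-!
Existence of the discriminant, and the square of the discriminant does not divide a suitable minor.
-/

set_option autoImplicit false

namespace Pool.Agent.Helper1K1.AF

open MvPolynomial Submodule Pool.Agent.Helper56.Disc

variable {N d : ℕ}

lemma c0_degenerate (hd : 3 ≤ d) : ¬ Nondegenerate (form (c0 N d)) := by
  rw [form_c0 (by omega)]
  intro h
  have h1 := h (Pi.single 0 1) (fun i => eval_jac hd _ (Ideal.subset_span ⟨i, rfl⟩))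
  have h2 := congrFun h1 0
  simp at h2

lemma eval_zero_aeval (P : MvPolynomial (Mon (N + 1) d) ℂ) :
    (aeval (exc (Polynomial ℂ) N d Polynomial.X) P : Polynomial ℂ).eval 0 = eval (c0 N d) P := by
  have h1 : (Polynomial.evalRingHom (0 : ℂ)) (aeval (exc (Polynomial ℂ) N d Polynomial.X) P) =
      eval (fun α => (Polynomial.evalRingHom (0 : ℂ)) (exc (Polynomial ℂ) N d Polynomial.X α)) P := by
    rw [aeval_def, ← coe_eval₂Hom, MvPolynomial.eval, ← RingHom.comp_apply,
      MvPolynomial.comp_eval₂Hom]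
    congr 1
    apply MvPolynomial.ringHom_ext
    · intro r; simp
    · intro i; simp
  rw [← Polynomial.coe_evalRingHom, h1]
  congr 2
  funext α
  rw [exc_map, Polynomial.coe_evalRingHom, Polynomial.eval_X]
  rfl

lemma not_sq_dvd (hd : 3 ≤ d) (Δ : MvPolynomial (Mon (N + 1) d) ℂ)
    (hΔ : ∀ c, ¬ Nondegenerate (form c) → eval c Δ = 0)
    (P : MvPolynomial (Mon (N + 1) d) ℂ) (r : Polynomial ℂ) (hr : r.eval 0 ≠ 0)
    (hP : aeval (exc (Polynomial ℂ) N d Polynomial.X) P = Polynomial.X * r) : ¬ Δ ^ 2 ∣ P := by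
  rintro ⟨Q, rfl⟩
  have h1 : (aeval (exc (Polynomial ℂ) N d Polynomial.X) Δ : Polynomial ℂ).eval 0 = 0 := by
    rw [eval_zero_aeval]
    exact hΔ _ (c0_degenerate hd)
  have h2 : Polynomial.X ∣ (aeval (exc (Polynomial ℂ) N d Polynomial.X) Δ : Polynomial ℂ) := by
    rw [Polynomial.X_dvd_iff, Polynomial.coeff_zero_eq_eval_zero]
    exact h1
  obtain ⟨s, hs⟩ := h2
  rw [map_mul, map_pow, hs] at hP
  have h3 : Polynomial.X * (Polynomial.X * (s ^ 2 *
      (aeval (exc (Polynomial ℂ) N d Polynomial.X) Q : Polynomial ℂ))) = Polynomial.X * r := by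
    rw [← hP]; ring
  have h4 := mul_left_cancel₀ Polynomial.X_ne_zero h3
  apply hr
  rw [← h4]
  simp

lemma exists_vanishing_factor (hd : 3 ≤ d) (E : MvPolynomial (Mon (N + 1) d) ℂ) (hE0 : E ≠ 0)
    (hE : ∀ c, ¬ Nondegenerate (form c) → eval c E = 0) :
    ∃ p, Irreducible p ∧ ∀ c : Mon (N + 1) d → ℂ, ¬ Nondegenerate (form c) → eval c p = 0 := by
  revert hE0 hE
  induction E using WfDvdMonoid.induction_on_irreducible with
  | zero => intro h; exact absurd rfl h
  | unit u hu =>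
    intro _ h
    have h1 := h _ (c0_degenerate (N := N) hd)
    exact absurd h1 (hu.map (eval (c0 N d))).ne_zero
  | mul a i ha hi ih =>
    intro _ h
    rcases irr (by omega) i a h with h1 | h1
    · exact ⟨i, hi, h1⟩
    · exact ih ha h1

lemma Lam_sum {R : Type*} [CommRing R] {n e a : ℕ} (α0 : Mon n e) (J : Mon n e → Fin n × Mon n a)
    (c : Mon n d → R) (x : Mon n e → R) :
    Lam α0 J c x = ∑ γ, x γ * Lam α0 J c (Pi.single γ 1) := by
  classical
  have h1 : x = ∑ γ, x γ • (Pi.single γ (1 : R) : Mon n e → R) := by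
    funext β
    simp [Finset.sum_apply, Pi.single_apply]
  have h2 := congrArg (LamL α0 J c) h1
  rw [map_sum] at h2
  simp only [map_smul, smul_eq_mul, LamL_apply] at h2
  exact h2

/-- Common factors can be divided out. -/
lemma gcd_lemma {A : Type*} [CommRing A] [IsDomain A] [UniqueFactorizationMonoid A] {ι : Type*}
    [Fintype ι] [Nonempty ι] (L : ι → A) :
    ∃ (g : A) (ℓ : ι → A), (∀ i, L i = g * ℓ i) ∧ ∀ m h : A, (∀ i, h ∣ m * ℓ i) → h ∣ m := by
  classical
  let _ : NormalizedGCDMonoid A := Classical.arbitrary _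
  obtain ⟨ℓ, hℓ, hgcd⟩ := Finset.extract_gcd L (Finset.univ_nonempty (α := ι))
  refine ⟨Finset.univ.gcd L, ℓ, fun i => hℓ i (Finset.mem_univ _), fun m h hmh => ?_⟩
  have h2 : h ∣ Finset.univ.gcd (fun i => m * ℓ i) := Finset.dvd_gcd fun i _ => hmh i
  have h3 := Finset.gcd_mul_left' (s := Finset.univ) (f := ℓ) m
  rw [hgcd, mul_one] at h3
  exact h2.trans h3.dvd

/-- Existence of the discriminant. -/
theorem exists_discriminant (hN : 1 ≤ N) (hd : 3 ≤ d) :
    ∃ Δ : MvPolynomial (Mon (N + 1) d) ℂ, IsDiscriminant Δ := by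
  classical
  obtain ⟨E, hE0, hE⟩ := exists_E (N := N) hd
  obtain ⟨a, ha⟩ : ∃ a, a + (d - 1) = (N + 1) * (d - 2) := by
    have h1 : 2 * (d - 2) ≤ (N + 1) * (d - 2) := Nat.mul_le_mul_right _ (by omega)
    exact ⟨(N + 1) * (d - 2) - (d - 1), by omega⟩
  obtain ⟨J0, hJ0⟩ := exists_J (N := N) hd ha
  obtain ⟨r, hr, hline⟩ := MM_line hd ha J0 hJ0 E hE0 hE
  set L : Mon (N + 1) ((N + 1) * (d - 2)) → MvPolynomial (Mon (N + 1) d) ℂ :=
    fun γ => LL (e0 _ _) J0 (Pi.single γ 1) with hL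
  have hMon : Nonempty (Mon (N + 1) ((N + 1) * (d - 2))) := ⟨e0 _ _⟩
  obtain ⟨g, ℓ, hℓ, hgcd⟩ := gcd_lemma L
  set h := ∑ γ, hv (fun α => (X α : MvPolynomial (Mon (N + 1) d) ℂ)) γ * ℓ γ with hh
  have hLLs : ∀ (J : Mon (N + 1) ((N + 1) * (d - 2)) → Fin (N + 1) × Mon (N + 1) a) γ,
      Lam (e0 _ _) J (fun α => (X α : MvPolynomial (Mon (N + 1) d) ℂ)) (Pi.single γ 1) =
      LL (e0 _ _) J (Pi.single γ (1 : ℂ)) := by
    intro J γ
    unfold LL
    congr 1
    funext β
    by_cases hβ : β = γ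
    · subst hβ; simp
    · rw [Pi.single_eq_of_ne hβ, Pi.single_eq_of_ne hβ, map_zero]
  have hMM : MM (e0 _ _) J0 = g * h := by
    unfold MM
    rw [Lam_sum, hh, Finset.mul_sum]
    apply Finset.sum_congr rfl
    intro γ _
    rw [hLLs]
    have := hℓ γ
    simp only [hL] at this
    rw [this]
    ring
  have hprop : ∀ (J : Mon (N + 1) ((N + 1) * (d - 2)) → Fin (N + 1) × Mon (N + 1) a)
      (x : Mon (N + 1) ((N + 1) * (d - 2)) → ℂ),
      MM (e0 _ _) J * LL (e0 _ _) J0 x = MM (e0 _ _) J0 * LL (e0 _ _) J x := by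
    intro J x
    have h1 : E * (MM (e0 _ _) J * LL (e0 _ _) J0 x - MM (e0 _ _) J0 * LL (e0 _ _) J x) = 0 := by
      apply MvPolynomial.funext
      intro c
      rw [map_zero, map_mul]
      by_cases hc : Nondegenerate (form c)
      · obtain ⟨v, hv'⟩ := (socle_form (by omega) c hc).2 x
        rw [map_sub, map_mul, map_mul, eval_LL, eval_MM, eval_LL, eval_MM,
          Lam_eq (by omega) ha (e0 _ _) J0 c hc x v hv', Lam_eq (by omega) ha (e0 _ _) J c hc x v hv']
        ring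
      · rw [hE c hc, zero_mul]
    exact sub_eq_zero.1 ((mul_eq_zero.1 h1).resolve_left hE0)
  have hLe0 : eval (c0 N d) (L (e0 _ _)) ≠ 0 := by
    rw [hL]
    simp only
    rw [eval_LL]
    exact hJ0
  have hge : L (e0 _ _) = g * ℓ (e0 _ _) := hℓ _
  have hgc : eval (c0 N d) g ≠ 0 := by
    intro h0
    apply hLe0
    rw [hge, map_mul, h0, zero_mul]
  have hg0 : g ≠ 0 := by
    rintro h0
    apply hgc
    rw [h0, map_zero]
  have hdvd : ∀ (J : Mon (N + 1) ((N + 1) * (d - 2)) → Fin (N + 1) × Mon (N + 1) a),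
      h ∣ MM (e0 _ _) J := by
    intro J
    have h1 : ∀ γ, MM (e0 _ _) J * ℓ γ = h * LL (e0 _ _) J (Pi.single γ 1) := by
      intro γ
      apply mul_left_cancel₀ hg0
      have h2 := hprop J (Pi.single γ 1)
      have h3 := hℓ γ
      simp only [hL] at h3
      rw [h3, hMM] at h2
      linear_combination h2
    exact hgcd _ _ fun γ => ⟨_, h1 γ⟩
  have hV : ∀ c, eval c h = 0 → ¬ Nondegenerate (form c) := by
    intro c hc hnd
    have : Nonempty (Fin (N + 1) × Mon (N + 1) a) := ⟨(0, e0 _ _)⟩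
    obtain ⟨J, hJ⟩ := exists_det_ne_zero (fun κ : Fin (N + 1) × Mon (N + 1) a =>
        (Helper56.Disc.row c κ : Mon (N + 1) ((N + 1) * (d - 2)) → ℂ)) (hv c) (e0 _ _)
        (hv_notMem (by omega) ha c hnd) (mem_sup (by omega) ha c hnd)
    apply hJ
    obtain ⟨Q, hQ⟩ := hdvd J
    have h2 := congrArg (eval c) hQ
    rw [map_mul, hc, zero_mul, eval_MM] at h2
    exact h2
  have hc0 : eval (c0 N d) h = 0 := by
    have h1 : eval (c0 N d) (MM (e0 _ _) J0) = 0 := by
      rw [← eval_zero_aeval, hline]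
      simp
    rw [hMM, map_mul] at h1
    exact (mul_eq_zero.1 h1).resolve_left hgc
  have hunit : ¬ IsUnit h := fun hu => (hu.map (eval (c0 N d))).ne_zero hc0
  have hne : h ≠ 0 := by
    intro h0
    rw [hMM, h0, mul_zero, map_zero] at hline
    rcases mul_eq_zero.1 hline.symm with h1 | h1
    · exact Polynomial.X_ne_zero h1
    · rw [h1] at hr
      exact hr (by simp)
  obtain ⟨p, hp, hph⟩ := WfDvdMonoid.exists_irreducible_factor hunit hne
  obtain ⟨q, hq, hqv⟩ := exists_vanishing_factor hd E hE0 hE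
  have hpV : ∀ c, eval c p = 0 → ¬ Nondegenerate (form c) := by
    intro c hc
    apply hV
    obtain ⟨s, hs⟩ := hph
    rw [hs, map_mul, hc, zero_mul]
  have hpq : p ∣ q := by
    have hprime : (Ideal.span {p}).IsPrime := by
      rw [Ideal.span_singleton_prime hp.ne_zero]
      exact hp.prime
    have h1 : q ∈ (Ideal.span {p}).radical := by
      rw [← vanishingIdeal_zeroLocus_eq_radical (K := ℂ), mem_vanishingIdeal_iff]
      intro c hc
      rw [zeroLocus_span] at hc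
      have h2 := hc p (Set.mem_singleton p)
      rw [aeval_eq_eval] at h2 ⊢
      exact hqv c (hpV c h2)
    rw [hprime.radical, Ideal.mem_span_singleton] at h1
    exact h1
  obtain ⟨u, hu⟩ := hpq
  have hu1 : IsUnit u := (hq.isUnit_or_isUnit hu).resolve_left hp.not_isUnit
  refine ⟨p, hp, fun c => ⟨hpV c, fun hc => ?_⟩⟩
  have h1 := hqv c hc
  rw [hu, map_mul] at h1
  exact (mul_eq_zero.1 h1).resolve_right (hu1.map (eval c)).ne_zero

/-- The extension theorem for the discriminant. -/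
theorem extension (hN : 1 ≤ N) (hd : 3 ≤ d) (Δ : MvPolynomial (Mon (N + 1) d) ℂ)
    (hΔ : IsDiscriminant Δ) (x : Mon (N + 1) ((N + 1) * (d - 2)) → ℂ) :
    ∃ P : MvPolynomial (Mon (N + 1) d) ℂ, ∀ c : Mon (N + 1) d → ℂ, Nondegenerate (form c) →
      ∀ v : ℂ, form x - C v * hess (form c) ∈ jacIdeal (form c) → eval c P = eval c Δ * v := by
  obtain ⟨a, ha⟩ : ∃ a, a + (d - 1) = (N + 1) * (d - 2) := by
    have h1 : 2 * (d - 2) ≤ (N + 1) * (d - 2) := Nat.mul_le_mul_right _ (by omega)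
    exact ⟨(N + 1) * (d - 2) - (d - 1), by omega⟩
  obtain ⟨J0, hJ0⟩ := exists_J (N := N) hd ha
  obtain ⟨r, hr, hline⟩ := MM_line hd ha J0 hJ0 Δ hΔ.1.ne_zero (fun c hc => (hΔ.2 c).2 hc)
  have : Nonempty (Mon (N + 1) a) := ⟨e0 _ _⟩
  exact exists_extension (by omega) (by omega) ha (e0 _ _) Δ hΔ J0
    (not_sq_dvd hd Δ (fun c hc => (hΔ.2 c).2 hc) _ r hr hline) x

end Pool.Agent.Helper1K1.AF
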