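import Pool.Agent.Helper56.Disc.Minors
import Pool.Agent.Helper1K1.AF.Ex

/-!
The behaviour of the minors along the line `t ↦ f_0 + t z_0 ^ d` through the nodal form `f_0`.
-/

set_option autoImplicit false

namespace Pool.Agent.Helper1K1.AF

open MvPolynomial Submodule Pool.Agent.Helper56.Disc

section gen

variable {R : Type*} [CommRing R] {n d : ℕ}

/-- the minors as a linear function of the last row -/
noncomputable def LamL {e a : ℕ} (α0 : Mon n e) (J : Mon n e → Fin n × Mon n a)
    (c : Mon n d → R) : (Mon n e → R) →ₗ[R] R where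
  toFun := Lam α0 J c
  map_add' x y := by unfold Lam; exact Matrix.det_updateRow_add _ _ _ _
  map_smul' r x := by unfold Lam; exact Matrix.det_updateRow_smul _ _ _ _

lemma LamL_apply {e a : ℕ} (α0 : Mon n e) (J : Mon n e → Fin n × Mon n a)
    (c : Mon n d → R) (x : Mon n e → R) : LamL α0 J c x = Lam α0 J c x := rfl

lemma cv_add {e : ℕ} (g h : MvPolynomial (Fin n) R) :
    (cv (g + h) : Mon n e → R) = cv g + cv h := by
  funext γ; simp [cv]

lemma cv_sub {e : ℕ} (g h : MvPolynomial (Fin n) R) :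
    (cv (g - h) : Mon n e → R) = cv g - cv h := by
  funext γ; simp [cv]

lemma cv_C_mul {e : ℕ} (a : R) (g : MvPolynomial (Fin n) R) :
    (cv (C a * g) : Mon n e → R) = a • cv g := by
  funext γ; simp [cv]

lemma cv_mem_span {e a : ℕ} (h : a + (d - 1) = e) (c : Mon n d → R) (g : MvPolynomial (Fin n) R)
    (hg : g.IsHomogeneous e)
    (hx : g ∈ Ideal.span (Set.range fun i => pderiv i (form c))) :
    (cv g : Mon n e → R) ∈
      span R (Set.range (fun κ : Fin n × Mon n a => (row c κ : Mon n e → R))) := by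
  have hh : g.IsHomogeneous (a + (d - 1)) := by rw [h]; exact hg
  obtain ⟨p, hp, hpx⟩ := exists_homogeneous_coeffs (fun i => pderiv i (form c)) (d - 1) a
    (fun i => (form_isHomogeneous c).pderiv) g hh hx
  have h1 : (cv g : Mon n e → R) =
      ∑ i, ∑ β : Mon n a, (coeff β.1 (p i)) • (row c (i, β) : Mon n e → R) := by
    rw [hpx]
    funext γ
    simp only [cv, Finset.sum_apply, Pi.smul_apply, row, smul_eq_mul]
    rw [coeff_sum]
    apply Finset.sum_congr rfl
    intro i _
    conv_lhs => rw [← form_cv (p i) (hp i)]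
    unfold form
    rw [Finset.sum_mul, coeff_sum]
    apply Finset.sum_congr rfl
    intro β _
    rw [← coeff_C_mul, ← mul_assoc, C_mul_monomial, mul_one]
    rfl
  rw [h1]
  exact Submodule.sum_mem _ fun i _ => Submodule.sum_mem _ fun β _ =>
    Submodule.smul_mem _ _ (subset_span ⟨(i, β), rfl⟩)

lemma Lam_eq_zero_of_mem {e a : ℕ} (α0 : Mon n e) (J : Mon n e → Fin n × Mon n a)
    (c : Mon n d → R) (hrow : ∀ κ : Fin n × Mon n a, Lam α0 J c (row c κ) = 0) (x : Mon n e → R)
    (hx : x ∈ span R (Set.range (fun κ : Fin n × Mon n a => (row c κ : Mon n e → R)))) :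
    Lam α0 J c x = 0 := by
  rw [← LamL_apply]
  have h : span R (Set.range (fun κ : Fin n × Mon n a => (row c κ : Mon n e → R))) ≤
      LinearMap.ker (LamL α0 J c) := by
    rw [span_le]
    rintro _ ⟨κ, rfl⟩
    exact hrow κ
  exact h hx

end gen

section ex

variable (R : Type*) [CommRing R] (N d : ℕ)

/-- the forms `t z_0 ^ d + ∑ 2 ^ k (2 z_k ^ d - d z_0 ^ (d - 2) z_k ^ 2)` -/
noncomputable def exF (t : R) : MvPolynomial (Fin (N + 1)) R :=
  C t * X 0 ^ d + ∑ k : Fin N, C ((2 : R) ^ (k : ℕ)) *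
    (C 2 * X k.succ ^ d - C (d : R) * (X 0 ^ (d - 2) * X k.succ ^ 2))

variable {R N d}

lemma exF_hom (hd : 2 ≤ d) (t : R) : (exF R N d t).IsHomogeneous d := by
  unfold exF
  refine IsHomogeneous.add ?_ (IsHomogeneous.sum _ _ _ fun k _ => ?_)
  · have := (isHomogeneous_C (Fin (N + 1)) t).mul (isHomogeneous_X_pow (R := R) (0 : Fin (N + 1)) d)
    rwa [zero_add] at this
  · have h1 := (isHomogeneous_C (Fin (N + 1)) (2 : R)).mul
      (isHomogeneous_X_pow (R := R) (k.succ : Fin (N + 1)) d)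
    have h2 := (isHomogeneous_C (Fin (N + 1)) (d : R)).mul
      ((isHomogeneous_X_pow (R := R) (0 : Fin (N + 1)) (d - 2)).mul
      (isHomogeneous_X_pow (R := R) (k.succ : Fin (N + 1)) 2))
    rw [zero_add] at h1 h2
    rw [Nat.sub_add_cancel hd] at h2
    have h3 := (isHomogeneous_C (Fin (N + 1)) ((2 : R) ^ (k : ℕ))).mul (h1.sub h2)
    rwa [zero_add] at h3

lemma map_exF {S : Type*} [CommRing S] (φ : R →+* S) (t : R) :
    map φ (exF R N d t) = exF S N d (φ t) := by
  unfold exF
  have h2 : φ 2 = 2 := map_ofNat φ 2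
  simp [map_sum, h2]

lemma pderiv_exF_zero (hd : 3 ≤ d) (t : R) : pderiv 0 (exF R N d t) =
    C (d * t) * X 0 ^ (d - 1) - C ((d : R) * (d - 2 : ℕ)) * (X 0 ^ (d - 3) *
      ∑ k : Fin N, C ((2 : R) ^ (k : ℕ)) * X k.succ ^ 2) := by
  unfold exF
  have h0 : ∀ k : Fin N, pderiv (0 : Fin (N + 1)) (X k.succ : MvPolynomial (Fin (N + 1)) R) = 0 :=
    fun k => pderiv_X_of_ne (Fin.succ_ne_zero k)
  rw [map_add, map_sum, pderiv_C_mul, pderiv_pow, pderiv_X_self, mul_one]
  have h1 : ∀ k : Fin N, pderiv 0 (C ((2 : R) ^ (k : ℕ)) *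
    (C 2 * X k.succ ^ d - C (d : R) * (X 0 ^ (d - 2) * X k.succ ^ 2))) =
      - (C ((d : R) * (d - 2 : ℕ)) * (X 0 ^ (d - 3) *
        (C ((2 : R) ^ (k : ℕ)) * X k.succ ^ 2)) : MvPolynomial (Fin (N + 1)) R) := by
    intro k
    have e3 : d - 2 - 1 = d - 3 := by omega
    rw [pderiv_C_mul, map_sub, pderiv_C_mul, pderiv_C_mul, pderiv_mul, pderiv_pow, pderiv_pow,
      pderiv_pow, h0, pderiv_X_self, e3]
    simp only [mul_zero, mul_one, add_zero, zero_sub, map_mul, map_natCast]
    ring
  rw [Finset.sum_congr rfl fun k _ => h1 k, Finset.sum_neg_distrib, ← Finset.mul_sum,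
    ← Finset.mul_sum]
  simp only [map_mul, map_natCast]
  ring

lemma pderiv_exF_succ (t : R) (k : Fin N) : pderiv k.succ (exF R N d t) =
    C (2 * d * (2 : R) ^ (k : ℕ)) * (X k.succ ^ (d - 1) - X 0 ^ (d - 2) * X k.succ) := by
  unfold exF
  have h0 : pderiv k.succ (X 0 : MvPolynomial (Fin (N + 1)) R) = 0 :=
    pderiv_X_of_ne (Fin.succ_ne_zero k).symm
  rw [map_add, map_sum, pderiv_C_mul, pderiv_pow, h0, mul_zero, mul_zero, zero_add,
    Finset.sum_eq_single k]
  · rw [pderiv_C_mul, map_sub, pderiv_C_mul, pderiv_C_mul, pderiv_mul, pderiv_pow, pderiv_pow,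
      pderiv_pow, h0, pderiv_X_self]
    simp only [mul_zero, mul_one, zero_mul, zero_add, map_mul, map_natCast, map_pow, map_ofNat]
    norm_num
    ring
  · intro l _ hl
    have h1 : pderiv k.succ (X l.succ : MvPolynomial (Fin (N + 1)) R) = 0 :=
      pderiv_X_of_ne (fun h => hl (Fin.succ_injective _ h))
    rw [pderiv_C_mul, map_sub, pderiv_C_mul, pderiv_C_mul, pderiv_mul, pderiv_pow, pderiv_pow,
      pderiv_pow, h0, h1]
    simp
  · simp

variable (R N d)

/-- the quotient of the Hessian of the forms by the parameter -/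
noncomputable def uu : MvPolynomial (Fin (N + 1)) R :=
  C (d : R) * X 0 ^ (d - 2) * ∏ k : Fin N, (C (2 * d * (2 : R) ^ (k : ℕ)) *
    (X k.succ ^ (d - 2) - X 0 ^ (d - 2)))

/-- the matrix expressing the partial derivatives by the variables -/
noncomputable def TT (t : R) : Matrix (Fin (N + 1)) (Fin (N + 1)) (MvPolynomial (Fin (N + 1)) R) :=
  Matrix.of fun i j => Fin.cases
    (Fin.cases (C (d * t) * X 0 ^ (d - 2))
      (fun k => - (C ((d : R) * (d - 2 : ℕ) * 2 ^ (k : ℕ)) * (X 0 ^ (d - 3) * X k.succ))) j)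
    (fun k => Fin.cases 0 (fun l => if k = l then C (2 * d * (2 : R) ^ (k : ℕ)) *
      (X k.succ ^ (d - 2) - X 0 ^ (d - 2)) else 0) j) i

variable {R N d}

lemma TT_mulVec (hd : 3 ≤ d) (t : R) :
    (TT R N d t).mulVec X = fun i => pderiv i (exF R N d t) := by
  have e2 : d - 1 = (d - 2) + 1 := by omega
  funext i
  refine Fin.cases ?_ (fun k => ?_) i
  · rw [pderiv_exF_zero hd]
    simp only [TT, Matrix.mulVec, dotProduct, Matrix.of_apply, Fin.sum_univ_succ, Fin.cases_zero,
      Fin.cases_succ]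
    rw [e2, pow_succ, Finset.mul_sum, Finset.mul_sum, sub_eq_add_neg, ← Finset.sum_neg_distrib]
    congr 1
    · ring
    · apply Finset.sum_congr rfl
      intro k _
      simp only [map_mul, map_natCast, map_pow]
      ring
  · rw [pderiv_exF_succ]
    simp only [TT, Matrix.mulVec, dotProduct, Matrix.of_apply, Fin.sum_univ_succ, Fin.cases_zero,
      Fin.cases_succ]
    rw [zero_mul, zero_add, Finset.sum_eq_single k]
    · rw [if_pos rfl, e2, pow_succ]
      ring
    · intro l _ hl
      rw [if_neg (Ne.symm hl), zero_mul]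
    · simp

lemma TT_det (t : R) : (TT R N d t).det = C t * uu R N d := by
  have htri : (TT R N d t).BlockTriangular id := by
    intro i j hij
    simp only [id] at hij
    revert hij
    refine Fin.cases ?_ (fun k => ?_) i
    · intro h
      exact absurd h (Fin.not_lt_zero j)
    · refine Fin.cases ?_ (fun l => ?_) j
      · intro _
        simp [TT]
      · intro h
        simp only [TT, Matrix.of_apply, Fin.cases_succ]
        rw [if_neg]
        rintro rfl
        exact lt_irrefl _ h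
  rw [Matrix.det_of_isUpperTriangular htri, Fin.prod_univ_succ]
  simp only [TT, Matrix.of_apply, Fin.cases_zero, Fin.cases_succ, if_true, uu]
  rw [map_mul]
  ring

lemma hess_rel (hd : 3 ≤ d) (t : R) :
    hess (exF R N d t) - C (((d - 1 : ℕ) : R) ^ (N + 1) * t) * uu R N d ∈
      Ideal.span (Set.range fun i => pderiv i (exF R N d t)) := by
  set f := exF R N d t with hf
  set w : Fin (N + 1) → MvPolynomial (Fin (N + 1)) R :=
    fun i => C ((d - 1 : ℕ) : R) * pderiv i f with hw
  have h1 : (Matrix.of fun i j => pderiv j (pderiv i f)).mulVec X = w := by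
    funext i
    have hh : (pderiv i f).IsHomogeneous (d - 1) := (exF_hom (by omega) t).pderiv
    have := hh.sum_X_mul_pderiv
    simp only [Matrix.mulVec, dotProduct, Matrix.of_apply]
    rw [nsmul_eq_mul] at this
    rw [hw]
    simp only
    rw [map_natCast, ← this]
    apply Finset.sum_congr rfl
    intro j _
    ring
  have h2 : ((C ((d - 1 : ℕ) : R) : MvPolynomial (Fin (N + 1)) R) • TT R N d t).mulVec X = w := by
    rw [Matrix.smul_mulVec, TT_mulVec hd]
    rfl
  have h3 := det_congr_of_mulVec _ (koszulExact_X R) _ _ w h1 h2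
  rw [Matrix.det_smul, TT_det, Fintype.card_fin] at h3
  have h4 : Ideal.span (Set.range w) ≤ Ideal.span (Set.range fun i => pderiv i f) := by
    rw [Ideal.span_le]
    rintro _ ⟨i, rfl⟩
    exact Ideal.mul_mem_left _ _ (Ideal.subset_span ⟨i, rfl⟩)
  have h5 := h4 h3
  have h6 : hess f - C (((d - 1 : ℕ) : R) ^ (N + 1) * t) * uu R N d =
      (Matrix.of fun i j => pderiv j (pderiv i f)).det -
      C ((d - 1 : ℕ) : R) ^ (N + 1) * (C t * uu R N d) := by
    unfold hess
    rw [map_mul, map_pow]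
    ring
  rw [h6]
  exact h5

lemma uu_hom : (uu R N d).IsHomogeneous ((N + 1) * (d - 2)) := by
  unfold uu
  have h1 := (isHomogeneous_C (Fin (N + 1)) (d : R)).mul
    (isHomogeneous_X_pow (R := R) (0 : Fin (N + 1)) (d - 2))
  have h2 : (∏ k : Fin N, (C (2 * d * (2 : R) ^ (k : ℕ)) *
    (X k.succ ^ (d - 2) - X 0 ^ (d - 2)) : MvPolynomial (Fin (N + 1)) R)).IsHomogeneous
      (∑ _k : Fin N, (0 + (d - 2))) :=
    IsHomogeneous.prod _ _ _ fun k _ => (isHomogeneous_C _ _).mul
      ((isHomogeneous_X_pow _ _).sub (isHomogeneous_X_pow _ _))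
  have h3 := h1.mul h2
  rw [Finset.sum_const, Finset.card_univ, Fintype.card_fin, smul_eq_mul] at h3
  have : 0 + (d - 2) + N * (0 + (d - 2)) = (N + 1) * (d - 2) := by ring
  rwa [this] at h3

lemma map_uu {S : Type*} [CommRing S] (φ : R →+* S) : map φ (uu R N d) = uu S N d := by
  unfold uu
  have h2 : φ 2 = 2 := map_ofNat φ 2
  simp [map_prod, h2]

/-- the coefficient vector of the forms -/
noncomputable def exc (R : Type*) [CommRing R] (N d : ℕ) (t : R) : Mon (N + 1) d → R :=
  cv (exF R N d t)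

lemma form_exc (hd : 2 ≤ d) (t : R) : form (exc R N d t) = exF R N d t :=
  form_cv _ (exF_hom hd t)

lemma exc_map {S : Type*} [CommRing S] (φ : R →+* S) (t : R) (α : Mon (N + 1) d) :
    φ (exc R N d t α) = exc S N d (φ t) α := by
  unfold exc cv
  rw [← coeff_map, map_exF]

/-- the value of the minors at the Hessian along the line -/
lemma Lam_hv (hd : 3 ≤ d) (t : R) {a : ℕ} (ha : a + (d - 1) = (N + 1) * (d - 2))
    (α0 : Mon (N + 1) ((N + 1) * (d - 2)))
    (J : Mon (N + 1) ((N + 1) * (d - 2)) → Fin (N + 1) × Mon (N + 1) a)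
    (hrow : ∀ κ : Fin (N + 1) × Mon (N + 1) a,
      Lam α0 J (exc R N d t) (Helper56.Disc.row (exc R N d t) κ) = 0) :
    Lam α0 J (exc R N d t) (hv (exc R N d t)) =
      ((d - 1 : ℕ) : R) ^ (N + 1) * t * Lam α0 J (exc R N d t) (cv (uu R N d)) := by
  have h1 := hess_rel (R := R) (N := N) hd t
  have hf := form_exc (R := R) (N := N) (d := d) (by omega) t
  rw [← hf] at h1
  have h2 : (hess (form (exc R N d t)) - C (((d - 1 : ℕ) : R) ^ (N + 1) * t) *
      uu R N d).IsHomogeneous ((N + 1) * (d - 2)) := by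
    refine (hess_isHomogeneous _ (form_isHomogeneous _)).sub ?_
    have := (isHomogeneous_C (Fin (N + 1)) (((d - 1 : ℕ) : R) ^ (N + 1) * t)).mul
      (uu_hom (R := R) (N := N) (d := d))
    rwa [zero_add] at this
  have h3 := cv_mem_span ha (exc R N d t) _ h2 h1
  have h4 := Lam_eq_zero_of_mem α0 J _ hrow _ h3
  rw [cv_sub, cv_C_mul, Lam_sub_smul] at h4
  have h5 : hv (exc R N d t) = (cv (hess (form (exc R N d t))) :
    Mon (N + 1) ((N + 1) * (d - 2)) → R) := rfl
  rw [h5]
  linear_combination h4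

end ex

end Pool.Agent.Helper1K1.AF
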