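import Mathlib

/-!
The set `Th m` of the roots of `y ^ m - y` and homogeneous Lagrange interpolation at it.
-/

set_option autoImplicit false

namespace Pool.Agent.Helper1K1.AF

open MvPolynomial

/-- The roots of `y ^ m - y`. -/
noncomputable def Th (m : ℕ) : Finset ℂ := insert 0 (Polynomial.nthRootsFinset (m - 1) (1 : ℂ))

lemma zero_mem_Th (m : ℕ) : (0 : ℂ) ∈ Th m := Finset.mem_insert_self _ _

lemma zero_notMem {m : ℕ} (hm : 2 ≤ m) :
    (0 : ℂ) ∉ Polynomial.nthRootsFinset (m - 1) (1 : ℂ) := by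
  rw [Polynomial.mem_nthRootsFinset (by omega)]
  rw [zero_pow (by omega)]
  exact zero_ne_one

lemma card_Th {m : ℕ} (hm : 2 ≤ m) : (Th m).card = m := by
  unfold Th
  rw [Finset.card_insert_of_notMem (zero_notMem hm),
    (Complex.isPrimitiveRoot_exp (m - 1) (by omega)).card_nthRootsFinset]
  omega

lemma norm_of_mem_Th {m : ℕ} (hm : 2 ≤ m) {θ : ℂ} (h : θ ∈ Th m) (h0 : θ ≠ 0) : ‖θ‖ = 1 := by
  unfold Th at h
  rw [Finset.mem_insert] at h
  rcases h with h | h
  · exact absurd h h0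
  · rw [Polynomial.mem_nthRootsFinset (by omega)] at h
    exact Complex.norm_eq_one_of_pow_eq_one h (by omega)

lemma prod_Th {m : ℕ} (hm : 2 ≤ m) (x y : ℂ) :
    ∏ θ ∈ Th m, (y - θ * x) = y ^ m - x ^ (m - 1) * y := by
  unfold Th
  rw [Finset.prod_insert (zero_notMem hm)]
  have h := (Complex.isPrimitiveRoot_exp (m - 1) (by omega)).pow_sub_pow_eq_prod_sub_mul y x
    (by omega)
  rw [← h]
  obtain ⟨k, rfl⟩ : ∃ k, m = k + 1 := ⟨m - 1, by omega⟩
  simp only [Nat.add_sub_cancel]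
  ring

/-- the Lagrange coefficient -/
noncomputable def cTh (m : ℕ) (θ : ℂ) : ℂ := (∏ θ' ∈ (Th m).erase θ, (θ - θ'))⁻¹

lemma lagrange_one {m : ℕ} (hm : 2 ≤ m) (j : ℕ) (hj : j < m) (T : ℂ) :
    T ^ j = ∑ θ ∈ Th m, cTh m θ * θ ^ j * ∏ θ' ∈ (Th m).erase θ, (T - θ') := by
  have h := Lagrange.eq_interpolate_of_eval_eq (s := Th m) (v := (id : ℂ → ℂ)) (f := Polynomial.X ^ j)
    (fun θ => θ ^ j) (Set.injOn_id _) (by
      rw [card_Th hm, Polynomial.degree_X_pow]
      exact_mod_cast hj) (by intro i _; simp)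
  have h2 := congrArg (Polynomial.eval T) h
  rw [Polynomial.eval_pow, Polynomial.eval_X] at h2
  rw [h2, Lagrange.interpolate_apply, Polynomial.eval_finsetSum]
  apply Finset.sum_congr rfl
  intro θ _
  rw [Polynomial.eval_mul, Polynomial.eval_C, Lagrange.basis, Polynomial.eval_prod]
  unfold cTh
  have : ∏ j_1 ∈ (Th m).erase θ, Polynomial.eval T (Lagrange.basisDivisor (id θ) (id j_1)) =
      (∏ θ' ∈ (Th m).erase θ, (θ - θ'))⁻¹ * ∏ θ' ∈ (Th m).erase θ, (T - θ') := by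
    rw [← Finset.prod_inv_distrib, ← Finset.prod_mul_distrib]
    apply Finset.prod_congr rfl
    intro θ' _
    simp [Lagrange.basisDivisor]
  rw [this]
  ring

variable {N : ℕ}

/-- the product of the `z_k - θ' z_0` over all `θ' ≠ θ` -/
noncomputable def ee (m : ℕ) (θ : ℂ) (k : Fin N) : MvPolynomial (Fin (N + 1)) ℂ :=
  ∏ θ' ∈ (Th m).erase θ, (X k.succ - C θ' * X 0)

/-- the binomials -/
noncomputable def GG (m : ℕ) (k : Fin N) : MvPolynomial (Fin (N + 1)) ℂ :=
  X k.succ ^ m - X 0 ^ (m - 1) * X k.succ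

lemma mul_ee {m : ℕ} (hm : 2 ≤ m) {θ : ℂ} (hθ : θ ∈ Th m) (k : Fin N) :
    (X k.succ - C θ * X 0) * ee m θ k = GG m k := by
  unfold ee
  rw [Finset.mul_prod_erase (Th m) (fun θ' => (X k.succ - C θ' * X 0 : MvPolynomial (Fin (N + 1)) ℂ)) hθ]
  apply MvPolynomial.funext
  intro z
  rw [map_prod]
  simp only [map_sub, map_mul, eval_X, eval_C, GG, map_pow]
  exact prod_Th hm _ _

lemma lagrange_hom {m : ℕ} (hm : 2 ≤ m) (j : ℕ) (hj : j < m) (k : Fin N) :
    (X k.succ ^ j * X 0 ^ (m - 1 - j) : MvPolynomial (Fin (N + 1)) ℂ) =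
      ∑ θ ∈ Th m, C (cTh m θ * θ ^ j) * ee m θ k := by
  have hX : (X 0 : MvPolynomial (Fin (N + 1)) ℂ) ≠ 0 := X_ne_zero 0
  apply mul_left_cancel₀ hX
  apply MvPolynomial.funext
  intro z
  by_cases hx : z 0 = 0
  · simp [hx]
  · simp only [map_mul, eval_X, map_pow, map_sum, eval_C, ee, map_prod, map_sub]
    congr 1
    have h := lagrange_one hm j hj (z k.succ / z 0)
    have h1 : z k.succ ^ j * z 0 ^ (m - 1 - j) = z 0 ^ (m - 1) * (z k.succ / z 0) ^ j := by
      rw [div_pow]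
      have : z 0 ^ (m - 1) = z 0 ^ (m - 1 - j) * z 0 ^ j := by
        rw [← pow_add]; congr 1; omega
      rw [this]
      field_simp
    rw [h1, h, Finset.mul_sum]
    apply Finset.sum_congr rfl
    intro θ hθ
    have h2 : ∏ θ' ∈ (Th m).erase θ, (z k.succ - θ' * z 0) =
        z 0 ^ (m - 1) * ∏ θ' ∈ (Th m).erase θ, (z k.succ / z 0 - θ') := by
      have hc : ((Th m).erase θ).card = m - 1 := by
        rw [Finset.card_erase_of_mem hθ, card_Th hm]
      rw [← hc, ← Finset.prod_const, ← Finset.prod_mul_distrib]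
      apply Finset.prod_congr rfl
      intro θ' _
      field_simp
    rw [h2]
    ring

end Pool.Agent.Helper1K1.AF
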