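import Pool.Agent.Helper1K1.AF.Exist

/-!
For every monomial of degree `n (d - 2)` there is a nondegenerate form whose gradient ideal does
not contain it, and homogeneity in the coefficients.
-/

set_option autoImplicit false

namespace Pool.Agent.Helper1K1.AF

open MvPolynomial Submodule Pool.Agent.Helper56.Disc

variable {N d : ℕ}

/-- All coefficients in degree `e` are nonzero. -/
def Full {n : ℕ} (P : MvPolynomial (Fin n) ℕ) (e : ℕ) : Prop :=
  ∀ κ : Fin n →₀ ℕ, κ.degree = e → coeff κ P ≠ 0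

/-- the linear forms `z_j + ∑ z_k` -/
noncomputable def nl (R : Type*) [CommSemiring R] {n : ℕ} (j : Fin n) : MvPolynomial (Fin n) R :=
  X j + ∑ k, X k

lemma full_mul {n : ℕ} (P : MvPolynomial (Fin n) ℕ) (e : ℕ) (h : Full P e) (j : Fin n) :
    Full (nl ℕ j * P) (e + 1) := by
  intro κ hκ h0
  obtain ⟨i, hi⟩ : ∃ i, κ i ≠ 0 := by
    by_contra hcon
    push Not at hcon
    rw [Finsupp.degree_eq_sum, Finset.sum_eq_zero fun i _ => hcon i] at hκ
    omega
  have hle : Finsupp.single i 1 ≤ κ := by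
    rw [Finsupp.single_le_iff]; omega
  have h1 : coeff (κ - Finsupp.single i 1) P ≠ 0 := by
    apply h
    have h2 := congrArg Finsupp.degree (tsub_add_cancel_of_le hle)
    rw [map_add, Finsupp.degree_single] at h2
    omega
  unfold nl at h0
  rw [add_mul, Finset.sum_mul, coeff_add, coeff_sum] at h0
  have h3 : ∑ k : Fin n, coeff κ (X k * P) = 0 := by omega
  have h4 := (Finset.sum_eq_zero_iff.1 h3) i (Finset.mem_univ i)
  rw [coeff_X_mul', if_pos (Finsupp.mem_support_iff.2 hi)] at h4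
  exact h1 h4

lemma full_prod {n : ℕ} (γ : Fin n → ℕ) (s : Finset (Fin n)) :
    Full (∏ j ∈ s, nl ℕ j ^ γ j) (∑ j ∈ s, γ j) := by
  classical
  induction s using Finset.induction_on with
  | empty =>
    intro κ hκ
    rw [Finset.sum_empty, Finsupp.degree_eq_zero_iff] at hκ
    rw [hκ, Finset.prod_empty]
    simp
  | insert a s ha ih =>
    rw [Finset.prod_insert ha, Finset.sum_insert ha]
    have key : ∀ k, Full (nl ℕ a ^ k * ∏ j ∈ s, nl ℕ j ^ γ j) (k + ∑ j ∈ s, γ j) := by
      intro k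
      induction k with
      | zero => rw [pow_zero, one_mul, zero_add]; exact ih
      | succ k ihk =>
        have := full_mul _ _ ihk a
        rw [pow_succ', mul_assoc]
        have e1 : k + 1 + ∑ j ∈ s, γ j = k + ∑ j ∈ s, γ j + 1 := by ring
        rw [e1]
        exact this
    exact key _

/-- the linear forms of the Fermat form -/
noncomputable def ml (N : ℕ) (j : Fin (N + 1)) : MvPolynomial (Fin (N + 1)) ℂ :=
  X j - C (1 / ((N : ℂ) + 2)) * ∑ k, X k

/-- the transformed Fermat form -/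
noncomputable def tf (N d : ℕ) : MvPolynomial (Fin (N + 1)) ℂ := ∑ j, ml N j ^ d

lemma ml_hom (j : Fin (N + 1)) : (ml N j).IsHomogeneous 1 := by
  unfold ml
  have h1 : (∑ k : Fin (N + 1), X k : MvPolynomial (Fin (N + 1)) ℂ).IsHomogeneous 1 :=
    IsHomogeneous.sum _ _ _ fun i _ => isHomogeneous_X ℂ i
  have h2 := (isHomogeneous_C (Fin (N + 1)) (1 / ((N : ℂ) + 2))).mul h1
  rw [zero_add] at h2
  exact (isHomogeneous_X ℂ j).sub h2

lemma tf_hom : (tf N d).IsHomogeneous d := by
  refine IsHomogeneous.sum _ _ _ fun j _ => ?_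
  have := (ml_hom (N := N) j).pow d
  rwa [one_mul] at this

lemma pderiv_ml (j k : Fin (N + 1)) : pderiv k (ml N j) =
    C ((if j = k then 1 else 0) - 1 / ((N : ℂ) + 2)) := by
  unfold ml
  rw [map_sub, pderiv_C_mul, map_sum, Finset.sum_eq_single k]
  · rw [pderiv_X_self, mul_one, map_sub]
    congr 1
    by_cases h : j = k
    · subst h; rw [pderiv_X_self, if_pos rfl, map_one]
    · rw [pderiv_X_of_ne h, if_neg h, map_zero]
  · intro i _ hi
    rw [pderiv_X_of_ne hi]
  · simp

lemma pderiv_tf (k : Fin (N + 1)) : pderiv k (tf N d) =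
    ∑ j, C ((d : ℂ) * ((if j = k then 1 else 0) - 1 / ((N : ℂ) + 2))) * ml N j ^ (d - 1) := by
  unfold tf
  rw [map_sum]
  apply Finset.sum_congr rfl
  intro j _
  rw [pderiv_pow, pderiv_ml, map_mul, map_natCast]
  ring

lemma tf_nondeg (hd : 3 ≤ d) : Nondegenerate (tf N d) := by
  intro z hz
  have hd0 : (d : ℂ) ≠ 0 := by rw [Nat.cast_ne_zero]; omega
  have hN2 : (N : ℂ) + 2 ≠ 0 := by
    have : ((N + 2 : ℕ) : ℂ) ≠ 0 := by rw [Nat.cast_ne_zero]; omega
    push_cast at this
    exact this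
  have gen : ∀ w : Fin (N + 1) → ℂ, (∀ k, w k = 1 / ((N : ℂ) + 2) * ∑ j, w j) → ∀ k, w k = 0 := by
    intro w hw
    have h1 : ∑ k, w k = ∑ _k : Fin (N + 1), 1 / ((N : ℂ) + 2) * ∑ j, w j :=
      Finset.sum_congr rfl fun k _ => hw k
    rw [Finset.sum_const, Finset.card_univ, Fintype.card_fin, nsmul_eq_mul] at h1
    have h2 : ∑ k, w k = 0 := by
      have h3 : ((N : ℂ) + 2) * ∑ k, w k = ((N : ℂ) + 1) * ∑ j, w j := by
        push_cast at h1
        field_simp at h1
        linear_combination h1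
      linear_combination h3
    intro k
    rw [hw k, h2, mul_zero]
  have h1 : ∀ k, eval z (ml N k) ^ (d - 1) = 0 := by
    apply gen
    intro k
    have h2 := hz k
    rw [pderiv_tf, map_sum] at h2
    simp only [map_mul, eval_C, map_pow] at h2
    have h3 : (d : ℂ) * (eval z (ml N k) ^ (d - 1) -
        1 / ((N : ℂ) + 2) * ∑ j, eval z (ml N j) ^ (d - 1)) = 0 := by
      rw [← h2, mul_sub, Finset.mul_sum, Finset.mul_sum]
      have e1 : ∀ j : Fin (N + 1), (d : ℂ) * ((if j = k then 1 else 0) - 1 / ((N : ℂ) + 2)) *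
          eval z (ml N j) ^ (d - 1) = (if j = k then (d : ℂ) * eval z (ml N j) ^ (d - 1) else 0) -
          (d : ℂ) * (1 / ((N : ℂ) + 2) * eval z (ml N j) ^ (d - 1)) := by
        intro j
        split_ifs <;> ring
      rw [Finset.sum_congr rfl fun j _ => e1 j, Finset.sum_sub_distrib, Finset.sum_ite_eq',
        if_pos (Finset.mem_univ k)]
    have h4 := (mul_eq_zero.1 h3).resolve_left hd0
    linear_combination h4
  have h2 : ∀ k, eval z (ml N k) = 0 := fun k => by
    have := h1 k
    exact pow_eq_zero_iff (by omega) |>.1 this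
  funext k
  apply gen z _ k
  intro k
  have h3 := h2 k
  unfold ml at h3
  rw [map_sub, map_mul, eval_X, eval_C, map_sum] at h3
  simp only [eval_X] at h3
  linear_combination h3

lemma not_mem_tf (hd : 3 ≤ d) (γ : Fin (N + 1) →₀ ℕ) (hγ : γ.degree = (N + 1) * (d - 2)) :
    monomial γ (1 : ℂ) ∉ jacIdeal (tf N d) := by
  intro hmem
  set ψ : MvPolynomial (Fin (N + 1)) ℂ →ₐ[ℂ] MvPolynomial (Fin (N + 1)) ℂ :=
    aeval (fun j => nl ℂ j) with hψ
  set I := Ideal.span (Set.range fun l : Fin (N + 1) => (X l : MvPolynomial (Fin (N + 1)) ℂ) ^ (d - 1))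
    with hI
  have hN2 : (N : ℂ) + 2 ≠ 0 := by
    have : ((N + 2 : ℕ) : ℂ) ≠ 0 := by rw [Nat.cast_ne_zero]; omega
    push_cast at this
    exact this
  have hψml : ∀ j, ψ (ml N j) = X j := by
    intro j
    unfold ml
    rw [map_sub, map_mul, map_sum, hψ]
    simp only [aeval_X, algHom_C]
    unfold nl
    rw [Finset.sum_add_distrib, Finset.sum_const, Finset.card_univ, Fintype.card_fin, nsmul_eq_mul]
    have e1 : (C (1 / ((N : ℂ) + 2)) : MvPolynomial (Fin (N + 1)) ℂ) * C ((N : ℂ) + 2) = 1 := by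
      rw [← map_mul, one_div_mul_cancel hN2, map_one]
    have e2 : (C ((N : ℂ) + 2) : MvPolynomial (Fin (N + 1)) ℂ) = (N : MvPolynomial (Fin (N + 1)) ℂ) + 2 := by
      rw [map_add, map_natCast, map_ofNat]
    rw [e2] at e1
    rw [MvPolynomial.algebraMap_eq]
    push_cast
    linear_combination (-∑ k : Fin (N + 1), (X k : MvPolynomial (Fin (N + 1)) ℂ)) * e1
  have h1 : ψ (monomial γ (1 : ℂ)) ∈ I := by
    have h2 : jacIdeal (tf N d) ≤ I.comap ψ := by
      unfold jacIdeal
      rw [Ideal.span_le]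
      rintro _ ⟨k, rfl⟩
      rw [SetLike.mem_coe, Ideal.mem_comap]
      simp only
      rw [pderiv_tf, map_sum]
      refine Ideal.sum_mem _ fun j _ => ?_
      rw [map_mul, map_pow, hψml]
      exact Ideal.mul_mem_left _ _ (Ideal.subset_span ⟨j, rfl⟩)
    exact h2 hmem
  have h3 : ψ (monomial γ (1 : ℂ)) = map (Nat.castRingHom ℂ) (∏ j, nl ℕ j ^ γ j) := by
    rw [monomial_eq, Finsupp.prod_fintype _ _ (by simp), map_mul, map_prod, map_prod, hψ]
    simp only [map_pow, aeval_X, map_one, one_mul]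
    apply Finset.prod_congr rfl
    intro j _
    unfold nl
    simp [map_sum]
  set κ : Fin (N + 1) →₀ ℕ := Finsupp.equivFunOnFinite.symm (fun _ => d - 2) with hκ
  have hκdeg : κ.degree = ∑ j, γ j := by
    rw [← Finsupp.degree_eq_sum, hγ, Finsupp.degree_eq_sum]
    simp [hκ]
  have h4 := full_prod (fun j => γ j) Finset.univ κ hκdeg
  rw [h3] at h1
  have h11 : I = Ideal.span ((fun s : Fin (N + 1) →₀ ℕ => monomial s (1 : ℂ)) ''
      (Set.range (fun l : Fin (N + 1) => Finsupp.single l (d - 1)))) := by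
    rw [hI, ← Set.range_comp]
    congr 1
    ext x
    simp [X_pow_eq_monomial]
  rw [h11, mem_ideal_span_monomial_image] at h1
  obtain ⟨s, ⟨l, rfl⟩, hs⟩ := h1 κ (by
    rw [mem_support_iff, coeff_map]
    simpa using h4)
  have := hs l
  simp [hκ] at this
  omega

/-- the nondegenerate coefficient vector -/
noncomputable def ctf (N d : ℕ) : Mon (N + 1) d → ℂ := cv (tf N d)

lemma form_ctf : form (ctf N d) = tf N d := form_cv _ tf_hom

lemma hess_smul {n : ℕ} (s : ℂ) (f : MvPolynomial (Fin n) ℂ) :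
    hess (C s * f) = C (s ^ n) * hess f := by
  unfold hess
  have : (Matrix.of fun i j => pderiv j (pderiv i (C s * f))) =
      (C s : MvPolynomial (Fin n) ℂ) • (Matrix.of fun i j => pderiv j (pderiv i f)) := by
    ext1 i j
    simp only [Matrix.of_apply, Matrix.smul_apply, smul_eq_mul]
    rw [pderiv_C_mul, pderiv_C_mul]
  rw [this, Matrix.det_smul, Fintype.card_fin, map_pow]

lemma jacIdeal_smul {n : ℕ} (s : ℂ) (hs : s ≠ 0) (f : MvPolynomial (Fin n) ℂ) :
    jacIdeal (C s * f) = jacIdeal f := by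
  apply le_antisymm
  · unfold jacIdeal
    rw [Ideal.span_le]
    rintro _ ⟨i, rfl⟩
    simp only [SetLike.mem_coe]
    rw [pderiv_C_mul]
    exact Ideal.mul_mem_left _ _ (Ideal.subset_span ⟨i, rfl⟩)
  · unfold jacIdeal
    rw [Ideal.span_le]
    rintro _ ⟨i, rfl⟩
    simp only [SetLike.mem_coe]
    have h1 : pderiv i (C s * f) ∈ Ideal.span (Set.range fun i => pderiv i (C s * f)) :=
      Ideal.subset_span ⟨i, rfl⟩
    have h2 := Ideal.mul_mem_left _ (C s⁻¹) h1
    rwa [pderiv_C_mul, ← mul_assoc, ← map_mul, inv_mul_cancel₀ hs, map_one, one_mul] at h2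

lemma nondeg_smul {n : ℕ} (s : ℂ) (hs : s ≠ 0) (f : MvPolynomial (Fin n) ℂ)
    (hf : Nondegenerate f) : Nondegenerate (C s * f) := by
  intro z hz
  apply hf
  intro i
  have := hz i
  rw [pderiv_C_mul, map_mul, eval_C] at this
  exact (mul_eq_zero.1 this).resolve_left hs

/-- If the function `μ` is polynomial, it vanishes. -/
lemma mu_zero (γ : MvPolynomial (Fin (N + 1)) ℂ) (P : MvPolynomial (Mon (N + 1) d) ℂ)
    (hP : ∀ c : Mon (N + 1) d → ℂ, Nondegenerate (form c) → ∀ v : ℂ,
      γ - C v * hess (form c) ∈ jacIdeal (form c) → eval c P = v)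
    (c : Mon (N + 1) d → ℂ) (hc : Nondegenerate (form c)) (v : ℂ)
    (hv : γ - C v * hess (form c) ∈ jacIdeal (form c)) : v = 0 := by
  have h1 : ∀ s : ℂ, s ≠ 0 → eval (s • c) P * s ^ (N + 1) = v := by
    intro s hs
    have h2 : eval (s • c) P = v * (s ^ (N + 1))⁻¹ := by
      apply hP
      · rw [form_smul]; exact nondeg_smul s hs _ hc
      · rw [form_smul, jacIdeal_smul s hs, hess_smul, ← mul_assoc, ← map_mul, mul_assoc,
          inv_mul_cancel₀ (pow_ne_zero _ hs), mul_one]
        exact hv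
    rw [h2, mul_assoc, inv_mul_cancel₀ (pow_ne_zero _ hs), mul_one]
  set r : Polynomial ℂ := aeval (fun α => Polynomial.C (c α) * Polynomial.X) P with hr
  have hre : ∀ s : ℂ, r.eval s = eval (s • c) P := by
    intro s
    have h3 : (Polynomial.evalRingHom s) (aeval (fun α => Polynomial.C (c α) * Polynomial.X) P) =
        eval (fun α => (Polynomial.evalRingHom s) (Polynomial.C (c α) * Polynomial.X)) P := by
      rw [aeval_def, ← coe_eval₂Hom, MvPolynomial.eval, ← RingHom.comp_apply,
        MvPolynomial.comp_eval₂Hom]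
      congr 1
      apply MvPolynomial.ringHom_ext
      · intro r; simp
      · intro i; simp
    rw [hr, ← Polynomial.coe_evalRingHom, h3]
    congr 2
    funext α
    rw [Polynomial.coe_evalRingHom, Polynomial.eval_mul, Polynomial.eval_C, Polynomial.eval_X,
      Pi.smul_apply, smul_eq_mul, mul_comm]
  have h4 : Polynomial.X * (r * Polynomial.X ^ (N + 1) - Polynomial.C v) = 0 := by
    apply Polynomial.funext
    intro s
    by_cases hs : s = 0
    · simp [hs]
    · rw [Polynomial.eval_mul, Polynomial.eval_sub, Polynomial.eval_mul, Polynomial.eval_pow,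
        Polynomial.eval_X, Polynomial.eval_C, hre, h1 s hs]
      simp
  have h5 := (mul_eq_zero.1 h4).resolve_left Polynomial.X_ne_zero
  have h6 := congrArg (Polynomial.eval 0) h5
  simpa using h6

end Pool.Agent.Helper1K1.AF
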