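import Pool.Agent.Helper1K1.AF.Nod

/-!
A nonzero polynomial which vanishes at all degenerate forms (a minor of Macaulay's matrix).
-/

set_option autoImplicit false

namespace Pool.Agent.Helper1K1.AF

open MvPolynomial Submodule Pool.Agent.Helper56.Disc

variable {N d : ℕ}

lemma exists_big {n e m : ℕ} (h : n * (m - 1) < e) (α : Mon n e) : ∃ j, m ≤ α.1 j := by
  by_contra hcon
  push Not at hcon
  have h1 := mon_degree α
  rw [Finsupp.degree_eq_sum] at h1
  have h2 : ∑ i, α.1 i ≤ ∑ _i : Fin n, (m - 1) :=
    Finset.sum_le_sum fun i _ => by have := hcon i; omega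
  rw [Finset.sum_const, Finset.card_univ, Fintype.card_fin, smul_eq_mul] at h2
  omega

/-- The Fermat form. -/
noncomputable def fermat (N d : ℕ) : MvPolynomial (Fin (N + 1)) ℂ := ∑ j, X j ^ d

lemma fermat_hom : (fermat N d).IsHomogeneous d :=
  IsHomogeneous.sum _ _ _ fun _ _ => isHomogeneous_X_pow _ _

lemma pderiv_fermat (j : Fin (N + 1)) : pderiv j (fermat N d) = C (d : ℂ) * X j ^ (d - 1) := by
  unfold fermat
  rw [map_sum, Finset.sum_eq_single j]
  · rw [pderiv_pow, pderiv_X_self, map_natCast]
    ring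
  · intro i _ hi
    rw [pderiv_pow, pderiv_X_of_ne hi, mul_zero]
  · simp

theorem exists_E (hd : 3 ≤ d) : ∃ E : MvPolynomial (Mon (N + 1) d) ℂ, E ≠ 0 ∧
    ∀ c, ¬ Nondegenerate (form c) → eval c E = 0 := by
  classical
  set e := (N + 1) * (d - 2) + 1 with he
  set a := e - (d - 1) with ha
  have hae : a + (d - 1) = e := by
    have : d - 2 ≤ (N + 1) * (d - 2) := Nat.le_mul_of_pos_left _ (by omega)
    omega
  have hbig : ∀ α : Mon (N + 1) e, ∃ j, d - 1 ≤ α.1 j := fun α =>
    exists_big (by have : d - 1 - 1 = d - 2 := by omega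
                   rw [this]; omega) α
  choose j hj using hbig
  have hsub : ∀ α : Mon (N + 1) e, α.1 - Finsupp.single (j α) (d - 1) + Finsupp.single (j α) (d - 1)
      = α.1 := by
    intro α
    apply tsub_add_cancel_of_le
    rw [Finsupp.single_le_iff]
    exact hj α
  have hdeg : ∀ α : Mon (N + 1) e, (α.1 - Finsupp.single (j α) (d - 1)).degree = a := by
    intro α
    have h1 := congrArg Finsupp.degree (hsub α)
    rw [map_add, Finsupp.degree_single, mon_degree] at h1
    omega
  set κ : Mon (N + 1) e → Fin (N + 1) × Mon (N + 1) a := fun α =>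
    (j α, ⟨α.1 - Finsupp.single (j α) (d - 1), mem_mon _ (hdeg α)⟩) with hκ
  set E : MvPolynomial (Mon (N + 1) d) ℂ :=
    (Matrix.of fun α => (Helper56.Disc.row (fun β => X β) (κ α) :
      Mon (N + 1) e → MvPolynomial (Mon (N + 1) d) ℂ)).det with hE
  have heval : ∀ c, eval c E = (Matrix.of fun α => (Helper56.Disc.row c (κ α) :
      Mon (N + 1) e → ℂ)).det := by
    intro c
    rw [hE, RingHom.map_det]
    congr 1
    ext α γ
    simp only [RingHom.mapMatrix_apply, Matrix.map_apply, Matrix.of_apply]
    rw [row_map]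
    congr 1
    funext β; simp
  refine ⟨E, ?_, ?_⟩
  · intro h0
    have h1 := heval (cv (fermat N d))
    rw [h0, map_zero] at h1
    have h2 : (Matrix.of fun α => (Helper56.Disc.row (cv (fermat N d) : Mon (N + 1) d → ℂ) (κ α) :
        Mon (N + 1) e → ℂ)) = (d : ℂ) • (1 : Matrix (Mon (N + 1) e) (Mon (N + 1) e) ℂ) := by
      ext α γ
      rw [Matrix.of_apply, Matrix.smul_apply, Matrix.one_apply]
      unfold Helper56.Disc.row cv
      have h3 : form (fun γ : Mon (N + 1) d => coeff γ.1 (fermat N d)) = fermat N d :=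
        form_cv _ fermat_hom
      rw [h3, pderiv_fermat]
      have h4 : (monomial (κ α).2.1 (1 : ℂ)) * (C (d : ℂ) * X (κ α).1 ^ (d - 1)) =
          monomial α.1 (d : ℂ) := by
        have h5 : (κ α).2.1 + Finsupp.single (κ α).1 (d - 1) = α.1 := hsub α
        rw [X_pow_eq_monomial, mul_left_comm, monomial_mul, C_mul_monomial, mul_one, mul_one, h5]
      rw [h4, coeff_monomial]
      by_cases h : α = γ
      · rw [if_pos (by rw [h]), if_pos h]; simp
      · rw [if_neg (fun h' => h (Subtype.ext h')), if_neg h]; simp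
    rw [h2, Matrix.det_smul, Matrix.det_one, mul_one] at h1
    have hd0 : (d : ℂ) ≠ 0 := by rw [Nat.cast_ne_zero]; omega
    exact pow_ne_zero _ hd0 h1.symm
  · intro c hc
    unfold Nondegenerate at hc
    push Not at hc
    obtain ⟨p, hp, hp0⟩ := hc
    rw [heval, ← Matrix.exists_mulVec_eq_zero_iff]
    refine ⟨fun γ => ∏ i, p i ^ γ.1 i, ?_, ?_⟩
    · obtain ⟨i, hi⟩ : ∃ i, p i ≠ 0 := by
        by_contra hcon
        push Not at hcon
        exact hp0 (funext hcon)
      intro h
      have h1 := congrFun h ⟨Finsupp.single i e, mem_mon _ (Finsupp.degree_single _ _)⟩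
      simp only [Pi.zero_apply] at h1
      have h2 : ∏ l, p l ^ ((Finsupp.single i e : Fin (N + 1) →₀ ℕ) l) = p i ^ e := by
        rw [Finset.prod_eq_single i]
        · rw [Finsupp.single_eq_same]
        · intro l _ hl
          rw [Finsupp.single_eq_of_ne hl, pow_zero]
        · simp
      rw [h2] at h1
      exact pow_ne_zero _ hi h1
    · funext α
      rw [Pi.zero_apply]
      simp only [Matrix.mulVec, dotProduct, Matrix.of_apply]
      have h1 : (monomial (κ α).2.1 (1 : ℂ) * pderiv (κ α).1 (form c)).IsHomogeneous e := by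
        rw [← hae]
        exact (isHomogeneous_monomial _ (mon_degree (κ α).2)).mul (form_isHomogeneous c).pderiv
      have h2 := form_cv _ h1
      have h3 := congrArg (eval p) h2
      rw [map_mul, hp, mul_zero] at h3
      rw [← h3]
      unfold form
      rw [map_sum]
      apply Finset.sum_congr rfl
      intro γ _
      rw [eval_monomial, Finsupp.prod_fintype _ _ (by simp)]
      rfl

end Pool.Agent.Helper1K1.AF
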