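import Pool.Agent.Helper1K1.AF.Key

/-!
The nodal form and the choice of a minor which vanishes only to first order.
-/

set_option autoImplicit false

namespace Pool.Agent.Helper1K1.AF

open MvPolynomial Submodule Pool.Agent.Helper56.Disc

variable {N d : ℕ}

/-- the exponent of the power of `z_0` -/
noncomputable def e0 (N r : ℕ) : Mon (N + 1) r :=
  ⟨Finsupp.single 0 r, mem_mon _ (Finsupp.degree_single _ _)⟩

lemma mem_jac (hd : 3 ≤ d) (γ : Fin (N + 1) →₀ ℕ) (hdeg : γ.degree = (N + 1) * (d - 2))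
    (hne : γ ≠ Finsupp.single 0 ((N + 1) * (d - 2))) :
    monomial γ (1 : ℂ) ∈ jacIdeal (exF ℂ N d 0) := by
  set J := jacIdeal (exF ℂ N d 0) with hJ
  have hm : 2 ≤ d - 1 := by omega
  have hmem : ∀ i, pderiv i (exF ℂ N d 0) ∈ J := fun i => Ideal.subset_span ⟨i, rfl⟩
  have hG : ∀ k : Fin N, GG (d - 1) k ∈ J := by
    intro k
    have h1 := hmem k.succ
    rw [pderiv_exF_succ] at h1
    have hne : (2 * d * (2 : ℂ) ^ (k : ℕ)) ≠ 0 := by
      have : (d : ℂ) ≠ 0 := by
        rw [Nat.cast_ne_zero]; omega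
      exact mul_ne_zero (mul_ne_zero two_ne_zero this) (pow_ne_zero _ two_ne_zero)
    have h2 := Ideal.mul_mem_left J (C (2 * d * (2 : ℂ) ^ (k : ℕ))⁻¹) h1
    rw [← mul_assoc, ← map_mul, inv_mul_cancel₀ hne, map_one, one_mul] at h2
    exact h2
  have hQ : X 0 ^ (d - 1 - 2) * ∑ k : Fin N, C ((2 : ℂ) ^ (k : ℕ)) * X k.succ ^ 2 ∈ J := by
    have h1 := hmem 0
    rw [pderiv_exF_zero hd] at h1
    have hne : ((d : ℂ) * (d - 2 : ℕ)) ≠ 0 := by
      apply mul_ne_zero
      · rw [Nat.cast_ne_zero]; omega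
      · rw [Nat.cast_ne_zero]; omega
    have h2 := Ideal.mul_mem_left J (C (-((d : ℂ) * (d - 2 : ℕ))⁻¹)) h1
    have e3 : d - 1 - 2 = d - 3 := by omega
    rw [e3]
    convert h2 using 1
    rw [mul_zero, map_zero, zero_mul, zero_sub, map_neg, neg_mul_neg, ← mul_assoc, ← map_mul,
      inv_mul_cancel₀ hne, map_one, one_mul]
  have hmono : monomial γ (1 : ℂ) = X 0 ^ γ 0 * ∏ k : Fin N, X k.succ ^ γ k.succ := by
    rw [monomial_eq, Finsupp.prod_fintype _ _ (by simp), Fin.prod_univ_succ]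
    simp
  have hsum : γ 0 + ∑ k : Fin N, γ k.succ = (N + 1) * (d - 2) := by
    rw [← hdeg, Finsupp.degree_eq_sum, Fin.sum_univ_succ]
  rw [hmono]
  refine monomial_mem hm _ J hG hQ (fun θ hθ h0 => weights hm θ hθ h0)
    (∑ k : Fin N, γ k.succ) (γ 0) (fun k => γ k.succ) rfl ?_ ?_
  · have : d - 1 - 1 = d - 2 := by omega
    rw [this]
    exact hsum
  · intro h0
    apply hne
    have h1 : ∀ k : Fin N, γ k.succ = 0 := fun k => congrFun h0 k
    ext i
    refine Fin.cases ?_ (fun k => ?_) i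
    · rw [Finsupp.single_eq_same, ← hsum]
      simp [h1]
    · rw [h1, Finsupp.single_eq_of_ne (Fin.succ_ne_zero k)]

lemma eval_jac (hd : 3 ≤ d) (g : MvPolynomial (Fin (N + 1)) ℂ)
    (hg : g ∈ jacIdeal (exF ℂ N d 0)) : eval (Pi.single 0 1) g = 0 := by
  have h : jacIdeal (exF ℂ N d 0) ≤ RingHom.ker (eval (Pi.single 0 1)) := by
    unfold jacIdeal
    rw [Ideal.span_le]
    rintro _ ⟨i, rfl⟩
    rw [SetLike.mem_coe, RingHom.mem_ker]
    refine Fin.cases ?_ (fun k => ?_) i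
    · simp only
      rw [pderiv_exF_zero hd]
      simp [map_sum]
    · simp only
      rw [pderiv_exF_succ]
      have hd1 : d - 1 ≠ 0 := by omega
      simp [hd1]
  exact h hg

lemma eval_e0 (r : ℕ) : eval (Pi.single 0 1 : Fin (N + 1) → ℂ) (monomial (e0 N r).1 (1 : ℂ)) = 1 := by
  change eval (Pi.single 0 1 : Fin (N + 1) → ℂ) (monomial (Finsupp.single 0 r) (1 : ℂ)) = 1
  rw [eval_monomial, Finsupp.prod_single_index (by simp), Pi.single_eq_same, one_pow, one_mul]

/-- the coefficient vector of the nodal form -/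
noncomputable def c0 (N d : ℕ) : Mon (N + 1) d → ℂ := exc ℂ N d 0

lemma form_c0 (hd : 2 ≤ d) : form (c0 N d) = exF ℂ N d 0 := form_exc hd 0

/-- the vector of the power of `z_0` -/
noncomputable def h0 (N d : ℕ) : Mon (N + 1) ((N + 1) * (d - 2)) → ℂ := Pi.single (e0 _ _) 1

lemma form_single {n e : ℕ} (γ : Mon n e) : form (Pi.single γ (1 : ℂ)) = monomial γ.1 1 := by
  unfold form
  rw [Finset.sum_eq_single γ]
  · rw [Pi.single_eq_same]
  · intro β _ hβ
    rw [Pi.single_eq_of_ne hβ]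
    simp
  · simp

lemma sub_mem_W (hd : 3 ≤ d) {a : ℕ} (ha : a + (d - 1) = (N + 1) * (d - 2))
    (x : Mon (N + 1) ((N + 1) * (d - 2)) → ℂ) :
    x - x (e0 _ _) • h0 N d ∈ W ((N + 1) * (d - 2)) a (c0 N d) := by
  have h1 : ∀ γ : Mon (N + 1) ((N + 1) * (d - 2)), γ ≠ e0 _ _ →
      (Pi.single γ (1 : ℂ) : Mon (N + 1) ((N + 1) * (d - 2)) → ℂ) ∈
        W ((N + 1) * (d - 2)) a (c0 N d) := by
    intro γ hγ
    apply mem_W_of_form_mem ha
    rw [form_single, form_c0 (by omega)]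
    apply mem_jac hd _ (mon_degree γ)
    intro h
    exact hγ (Subtype.ext h)
  have h2 : x - x (e0 _ _) • h0 N d = ∑ γ ∈ Finset.univ.erase (e0 N ((N + 1) * (d - 2))),
      x γ • (Pi.single γ (1 : ℂ) : Mon (N + 1) ((N + 1) * (d - 2)) → ℂ) := by
    have h3 : x = ∑ γ, x γ • (Pi.single γ (1 : ℂ) : Mon (N + 1) ((N + 1) * (d - 2)) → ℂ) := by
      funext β
      simp [Finset.sum_apply, Pi.single_apply]
    conv_lhs => rw [h3]
    rw [← Finset.add_sum_erase Finset.univ _ (Finset.mem_univ (e0 N ((N + 1) * (d - 2)))), h0]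
    simp [Pi.single_apply]
  rw [h2]
  exact Submodule.sum_mem _ fun γ hγ => Submodule.smul_mem _ _ (h1 γ (Finset.ne_of_mem_erase hγ))

lemma h0_notMem (hd : 3 ≤ d) {a : ℕ} (ha : a + (d - 1) = (N + 1) * (d - 2)) :
    h0 N d ∉ W ((N + 1) * (d - 2)) a (c0 N d) := by
  intro h
  have h1 := form_mem_of_mem_W ha _ _ h
  rw [form_c0 (by omega), h0, form_single] at h1
  have h2 := eval_jac hd _ h1
  rw [eval_e0] at h2
  exact one_ne_zero h2

lemma W_ne_top (hd : 3 ≤ d) {a : ℕ} (ha : a + (d - 1) = (N + 1) * (d - 2)) :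
    W ((N + 1) * (d - 2)) a (c0 N d) ≠ ⊤ := by
  intro h
  apply h0_notMem hd ha
  rw [h]
  trivial

/-- The choice of the minor. -/
lemma exists_J (hd : 3 ≤ d) {a : ℕ} (ha : a + (d - 1) = (N + 1) * (d - 2)) :
    ∃ J : Mon (N + 1) ((N + 1) * (d - 2)) → Fin (N + 1) × Mon (N + 1) a,
      Lam (e0 _ _) J (c0 N d) (h0 N d) ≠ 0 := by
  classical
  have : Nonempty (Fin (N + 1) × Mon (N + 1) a) := ⟨(0, e0 _ _)⟩
  refine exists_det_ne_zero (fun κ : Fin (N + 1) × Mon (N + 1) a =>
    (Helper56.Disc.row (c0 N d) κ : Mon (N + 1) ((N + 1) * (d - 2)) → ℂ)) (h0 N d) (e0 _ _)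
    (h0_notMem hd ha) ?_
  intro x
  rw [Submodule.mem_sup]
  exact ⟨_, sub_mem_W hd ha x, x (e0 _ _) • h0 N d,
    Submodule.smul_mem _ _ (Submodule.mem_span_singleton_self _), by simp⟩

lemma Lam_c0 (hd : 3 ≤ d) {a : ℕ} (ha : a + (d - 1) = (N + 1) * (d - 2))
    (J : Mon (N + 1) ((N + 1) * (d - 2)) → Fin (N + 1) × Mon (N + 1) a)
    (x : Mon (N + 1) ((N + 1) * (d - 2)) → ℂ) :
    Lam (e0 _ _) J (c0 N d) x = x (e0 _ _) * Lam (e0 _ _) J (c0 N d) (h0 N d) := by
  have h1 := Lam_eq_zero (e0 _ _) J (c0 N d) (W_ne_top hd ha) _ (sub_mem_W hd ha x)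
  rw [Lam_sub_smul] at h1
  linear_combination h1

lemma cv_uu_ne (hd : 3 ≤ d) :
    (cv (uu ℂ N d) : Mon (N + 1) ((N + 1) * (d - 2)) → ℂ) (e0 _ _) ≠ 0 := by
  have h1 : ∀ g : MvPolynomial (Fin (N + 1)) ℂ, g.IsHomogeneous ((N + 1) * (d - 2)) →
      (cv g : Mon (N + 1) ((N + 1) * (d - 2)) → ℂ) (e0 _ _) = eval (Pi.single 0 1) g := by
    intro g hg
    rw [← form_cv g hg]
    rw [cv_form]
    unfold form
    rw [map_sum, Finset.sum_eq_single (e0 N ((N + 1) * (d - 2)))]
    · have e1 : monomial (e0 N ((N + 1) * (d - 2))).1 (cv g (e0 N ((N + 1) * (d - 2)))) =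
          C (cv g (e0 N ((N + 1) * (d - 2)))) * monomial (e0 N ((N + 1) * (d - 2))).1 (1 : ℂ) := by
        rw [C_mul_monomial, mul_one]
      rw [e1, map_mul, eval_C, eval_e0, mul_one]
    · intro β _ hβ
      rw [eval_monomial, Finsupp.prod_fintype _ _ (by simp), Fin.prod_univ_succ]
      obtain ⟨k, hk⟩ : ∃ k : Fin N, β.1 k.succ ≠ 0 := by
        by_contra hcon
        push Not at hcon
        apply hβ
        apply Subtype.ext
        have hs := mon_degree β
        rw [Finsupp.degree_eq_sum, Fin.sum_univ_succ, Finset.sum_eq_zero (fun k _ => hcon k),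
          add_zero] at hs
        have : ∀ i, β.1 i = (Finsupp.single 0 ((N + 1) * (d - 2)) : Fin (N + 1) →₀ ℕ) i := by
          intro i
          refine Fin.cases ?_ (fun k => ?_) i
          · rw [Finsupp.single_eq_same]
            exact hs
          · rw [hcon, Finsupp.single_eq_of_ne (Fin.succ_ne_zero k)]
        exact Finsupp.ext this
      have hz : (Pi.single 0 1 : Fin (N + 1) → ℂ) k.succ = 0 :=
        Pi.single_eq_of_ne (Fin.succ_ne_zero k) _
      rw [Finset.prod_eq_zero (Finset.mem_univ k) (by rw [hz, zero_pow hk]), mul_zero, mul_zero]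
    · simp
  rw [h1 _ uu_hom]
  unfold uu
  have hz : ∀ k : Fin N, (Pi.single 0 1 : Fin (N + 1) → ℂ) k.succ = 0 := fun k =>
    Pi.single_eq_of_ne (Fin.succ_ne_zero k) _
  have hd2 : d - 2 ≠ 0 := by omega
  have hd0 : (d : ℂ) ≠ 0 := by rw [Nat.cast_ne_zero]; omega
  simp only [map_mul, eval_C, map_pow, eval_X, Pi.single_eq_same, one_pow, mul_one, map_prod,
    map_sub, hz, zero_pow hd2, zero_sub]
  refine mul_ne_zero hd0 (Finset.prod_ne_zero_iff.2 fun k _ => ?_)
  have : (2 : ℂ) ^ (k : ℕ) ≠ 0 := pow_ne_zero _ two_ne_zero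
  exact mul_ne_zero (mul_ne_zero (mul_ne_zero two_ne_zero hd0) this) (by norm_num)

/-- Along the line through the nodal form the minor at the Hessian vanishes exactly to first
order. -/
theorem MM_line (hd : 3 ≤ d) {a : ℕ} (ha : a + (d - 1) = (N + 1) * (d - 2))
    (J : Mon (N + 1) ((N + 1) * (d - 2)) → Fin (N + 1) × Mon (N + 1) a)
    (hJ : Lam (e0 _ _) J (c0 N d) (h0 N d) ≠ 0)
    (E : MvPolynomial (Mon (N + 1) d) ℂ) (hE0 : E ≠ 0)
    (hE : ∀ c, ¬ Nondegenerate (form c) → eval c E = 0) :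
    ∃ r : Polynomial ℂ, r.eval 0 ≠ 0 ∧
      aeval (exc (Polynomial ℂ) N d Polynomial.X) (MM (e0 _ _) J) = Polynomial.X * r := by
  have hrowX : ∀ κ : Fin (N + 1) × Mon (N + 1) a,
      Lam (e0 _ _) J (fun α => (X α : MvPolynomial (Mon (N + 1) d) ℂ))
        (Helper56.Disc.row (fun α => X α) κ) = 0 := by
    intro κ
    have h1 : E * Lam (e0 _ _) J (fun α => (X α : MvPolynomial (Mon (N + 1) d) ℂ))
        (Helper56.Disc.row (fun α => X α) κ) = 0 := by
      apply MvPolynomial.funext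
      intro c
      rw [map_zero, map_mul]
      by_cases hc : Nondegenerate (form c)
      · have hW : W ((N + 1) * (d - 2)) a c ≠ ⊤ := by
          intro hT
          apply hv_notMem (by omega) ha c hc
          rw [hT]
          trivial
        rw [Lam_map]
        have e1 : (fun γ => eval c (Helper56.Disc.row (fun α => X α) κ γ) :
            Mon (N + 1) ((N + 1) * (d - 2)) → ℂ) = Helper56.Disc.row c κ := by
          funext γ
          rw [row_map]
          congr 1
          funext α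
          simp
        have e2 : (fun α => eval c (X α)) = c := by funext α; simp
        rw [e1, e2, Lam_eq_zero _ J c hW _ (subset_span ⟨κ, rfl⟩), mul_zero]
      · rw [hE c hc, zero_mul]
    exact (mul_eq_zero.1 h1).resolve_left hE0
  set cX := exc (Polynomial ℂ) N d Polynomial.X with hcX
  have hrow : ∀ κ : Fin (N + 1) × Mon (N + 1) a,
      Lam (e0 _ _) J cX (Helper56.Disc.row cX κ) = 0 := by
    intro κ
    have h1 := congrArg (aeval cX : MvPolynomial (Mon (N + 1) d) ℂ →ₐ[ℂ] Polynomial ℂ).toRingHom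
      (hrowX κ)
    rw [map_zero, Lam_map] at h1
    rw [← h1]
    congr 1
    · funext α; simp
    · funext γ
      rw [row_map]
      congr 1
      funext α; simp
  refine ⟨((d - 1 : ℕ) : Polynomial ℂ) ^ (N + 1) * Lam (e0 _ _) J cX (cv (uu (Polynomial ℂ) N d)),
    ?_, ?_⟩
  · rw [Polynomial.eval_mul, Polynomial.eval_pow, Polynomial.eval_natCast]
    refine mul_ne_zero (pow_ne_zero _ ?_) ?_
    · rw [Nat.cast_ne_zero]; omega
    · have h1 := Lam_map (Polynomial.evalRingHom (0 : ℂ)) (e0 _ _) J cX (cv (uu (Polynomial ℂ) N d))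
      rw [Polynomial.coe_evalRingHom] at h1
      rw [h1]
      have e1 : (fun α => Polynomial.eval 0 (cX α)) = c0 N d := by
        funext α
        have := exc_map (Polynomial.evalRingHom (0 : ℂ)) (Polynomial.X) α (N := N) (d := d)
        rw [Polynomial.coe_evalRingHom, Polynomial.eval_X] at this
        exact this
      have e2 : (fun γ => Polynomial.eval 0 (cv (uu (Polynomial ℂ) N d) γ) :
          Mon (N + 1) ((N + 1) * (d - 2)) → ℂ) = cv (uu ℂ N d) := by
        funext γ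
        unfold cv
        rw [← Polynomial.coe_evalRingHom, ← coeff_map, map_uu]
      rw [e1, e2, Lam_c0 hd ha]
      exact mul_ne_zero (cv_uu_ne hd) hJ
  · have h1 := Lam_hv (N := N) hd Polynomial.X ha (e0 _ _) J hrow
    have h2 : aeval cX (MM (e0 _ _) J) = Lam (e0 _ _) J cX (hv cX) := by
      unfold MM
      have h3 := Lam_map (aeval cX : MvPolynomial (Mon (N + 1) d) ℂ →ₐ[ℂ] Polynomial ℂ).toRingHom
        (e0 N ((N + 1) * (d - 2))) J (fun α => X α) (hv fun α => X α)
      have e1 : (fun α => (aeval cX : MvPolynomial (Mon (N + 1) d) ℂ →ₐ[ℂ] Polynomial ℂ).toRingHom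
          (X α)) = cX := by
        funext α; simp
      have e2 : (fun γ => (aeval cX : MvPolynomial (Mon (N + 1) d) ℂ →ₐ[ℂ] Polynomial ℂ).toRingHom
          (hv (fun α => X α) γ)) = hv cX := by
        funext γ
        rw [hv_map, e1]
      rw [e1, e2] at h3
      exact h3
    rw [h2, h1]
    ring

end Pool.Agent.Helper1K1.AF
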