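import Pool.Agent.Helper1K1.AF.Mac

/-!
The set of the degenerate forms is irreducible: it is the image of a polynomial map.
-/

set_option autoImplicit false

namespace Pool.Agent.Helper1K1.AF

open MvPolynomial Submodule Pool.Agent.Helper56.Disc

section par

variable {R : Type*} [CommRing R] {n d : ℕ}

/-- A form which is singular at `p`, obtained from an arbitrary form. -/
noncomputable def parF (p l : Fin n → R) (c : Mon n d → R) : MvPolynomial (Fin n) R :=
  C ((∑ i, l i * p i) ^ d) * form c -
    C (∑ i, l i * p i) * ((∑ i, C (l i) * X i) ^ (d - 1) *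
      ∑ j, C (eval p (pderiv j (form c))) * X j) +
    C (((d - 1 : ℕ) : R) * eval p (form c)) * (∑ i, C (l i) * X i) ^ d

/-- the coefficient vector -/
noncomputable def par (p l : Fin n → R) (c : Mon n d → R) : Mon n d → R := cv (parF p l c)

lemma lin_hom (l : Fin n → R) : (∑ i, C (l i) * X i : MvPolynomial (Fin n) R).IsHomogeneous 1 := by
  refine IsHomogeneous.sum _ _ _ fun i _ => ?_
  have := (isHomogeneous_C (Fin n) (l i)).mul (isHomogeneous_X R i)
  rwa [zero_add] at this

lemma parF_hom (hd : 1 ≤ d) (p l : Fin n → R) (c : Mon n d → R) :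
    (parF p l c).IsHomogeneous d := by
  unfold parF
  have h1 := (isHomogeneous_C (Fin n) ((∑ i, l i * p i) ^ d)).mul (form_isHomogeneous c)
  have h2 := (isHomogeneous_C (Fin n) (∑ i, l i * p i)).mul
    (((lin_hom l).pow (d - 1)).mul (lin_hom fun j => eval p (pderiv j (form c))))
  have h3 := (isHomogeneous_C (Fin n) (((d - 1 : ℕ) : R) * eval p (form c))).mul
    ((lin_hom l).pow d)
  rw [zero_add] at h1 h2 h3
  rw [one_mul] at h2 h3
  rw [Nat.sub_add_cancel hd] at h2
  exact (h1.sub h2).add h3

lemma map_parF {S : Type*} [CommRing S] (φ : R →+* S) (p l : Fin n → R) (c : Mon n d → R) :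
    map φ (parF p l c) = parF (fun i => φ (p i)) (fun i => φ (l i)) (fun α => φ (c α)) := by
  have h1 : ∀ g : MvPolynomial (Fin n) R, φ (eval p g) = eval (fun i => φ (p i)) (map φ g) := by
    intro g
    rw [eval_map]
    have h2 := eval₂_comp_left φ (RingHom.id R) p g
    rw [RingHom.comp_id] at h2
    exact h2
  unfold parF
  simp only [map_add, map_sub, map_mul, map_C, map_pow, map_sum, map_X, map_form, h1,
    ← pderiv_map, map_natCast]

lemma par_map {S : Type*} [CommRing S] (φ : R →+* S) (p l : Fin n → R) (c : Mon n d → R)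
    (α : Mon n d) : φ (par p l c α) =
      par (fun i => φ (p i)) (fun i => φ (l i)) (fun α => φ (c α)) α := by
  unfold par cv
  rw [← coeff_map, map_parF]

lemma eval_lin (l z : Fin n → R) : eval z (∑ i, C (l i) * X i : MvPolynomial (Fin n) R) =
    ∑ i, l i * z i := by
  simp [map_sum]

lemma pderiv_lin (l : Fin n → R) (j : Fin n) :
    pderiv j (∑ i, C (l i) * X i : MvPolynomial (Fin n) R) = C (l j) := by
  rw [map_sum, Finset.sum_eq_single j]
  · rw [pderiv_C_mul, pderiv_X_self, mul_one]
  · intro i _ hi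
    rw [pderiv_C_mul, pderiv_X_of_ne hi, mul_zero]
  · simp

lemma euler (p : Fin n → R) (c : Mon n d → R) :
    ∑ j, eval p (pderiv j (form c)) * p j = (d : R) * eval p (form c) := by
  have h := (form_isHomogeneous c).sum_X_mul_pderiv
  have h2 := congrArg (eval p) h
  rw [map_sum, map_nsmul, nsmul_eq_mul] at h2
  rw [← h2]
  apply Finset.sum_congr rfl
  intro j _
  rw [map_mul, eval_X]
  ring

lemma eval_pderiv_parF (hd : 2 ≤ d) (p l : Fin n → R) (c : Mon n d → R) (j : Fin n) :
    eval p (pderiv j (parF p l c)) = 0 := by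
  have h1 := euler p c
  unfold parF
  rw [map_add, map_sub, pderiv_C_mul, pderiv_C_mul, pderiv_C_mul, pderiv_mul, pderiv_pow,
    pderiv_pow, pderiv_lin, pderiv_lin]
  simp only [map_add, map_sub, map_mul, eval_C, map_pow, eval_lin, map_natCast]
  rw [h1]
  obtain ⟨m, rfl⟩ : ∃ m, d = m + 2 := ⟨d - 2, by omega⟩
  have e1 : m + 2 - 1 = m + 1 := by omega
  have e2 : m + 2 - 1 - 1 = m := by omega
  rw [e2, e1]
  push_cast
  ring

end par

variable {N d : ℕ}

lemma degenerate_par (hd : 2 ≤ d) (p l : Fin (N + 1) → ℂ) (c : Mon (N + 1) d → ℂ) :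
    ¬ Nondegenerate (form (par p l c)) := by
  have hf : form (par p l c) = parF p l c := form_cv _ (parF_hom (by omega) p l c)
  rw [hf]
  intro h
  by_cases hp : p = 0
  · have h0 : parF p l c = 0 := by
      unfold parF
      have e1 : ∑ i, l i * p i = 0 := by rw [hp]; simp
      have e2 : eval p (form c) = 0 := by
        rw [hp]
        unfold form
        rw [map_sum]
        apply Finset.sum_eq_zero
        intro α _
        rw [eval_monomial]
        obtain ⟨i, hi⟩ : ∃ i, α.1 i ≠ 0 := by
          by_contra hcon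
          push Not at hcon
          have := mon_degree α
          rw [Finsupp.degree_eq_sum, Finset.sum_eq_zero fun i _ => hcon i] at this
          omega
        rw [Finsupp.prod_fintype _ _ (by simp), Finset.prod_eq_zero (Finset.mem_univ i),
          mul_zero]
        rw [Pi.zero_apply, zero_pow hi]
      rw [e1, e2, zero_pow (by omega)]
      simp
    rw [h0] at h
    have h1 := h (Pi.single 0 1) (by intro i; simp)
    have h2 := congrFun h1 0
    simp at h2
  · exact hp (h p fun j => eval_pderiv_parF hd p l c j)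

lemma exists_par (hd : 2 ≤ d) (c : Mon (N + 1) d → ℂ) (hc : ¬ Nondegenerate (form c)) :
    ∃ p l : Fin (N + 1) → ℂ, par p l c = c := by
  unfold Nondegenerate at hc
  push Not at hc
  obtain ⟨p, hp, hp0⟩ := hc
  obtain ⟨i, hi⟩ : ∃ i, p i ≠ 0 := by
    by_contra hcon
    push Not at hcon
    exact hp0 (funext hcon)
  refine ⟨p, Pi.single i (p i)⁻¹, ?_⟩
  have hs : ∑ j, (Pi.single i (p i)⁻¹ : Fin (N + 1) → ℂ) j * p j = 1 := by
    rw [Finset.sum_eq_single i]
    · rw [Pi.single_eq_same, inv_mul_cancel₀ hi]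
    · intro j _ hj
      rw [Pi.single_eq_of_ne hj, zero_mul]
    · simp
  have he : eval p (form c) = 0 := by
    have h1 := euler p c
    rw [Finset.sum_eq_zero fun j _ => by rw [hp j, zero_mul]] at h1
    have hd0 : (d : ℂ) ≠ 0 := by rw [Nat.cast_ne_zero]; omega
    exact (mul_eq_zero.1 h1.symm).resolve_left hd0
  have h2 : parF p (Pi.single i (p i)⁻¹) c = form c := by
    unfold parF
    rw [hs, he]
    simp [hp]
  unfold par
  rw [h2, cv_form]

/-- If a product vanishes at all degenerate forms, then so does one of the factors. -/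
theorem irr (hd : 2 ≤ d) (P Q : MvPolynomial (Mon (N + 1) d) ℂ)
    (h : ∀ c, ¬ Nondegenerate (form c) → eval c (P * Q) = 0) :
    (∀ c, ¬ Nondegenerate (form c) → eval c P = 0) ∨
      (∀ c, ¬ Nondegenerate (form c) → eval c Q = 0) := by
  set σ := Fin (N + 1) ⊕ (Fin (N + 1) ⊕ Mon (N + 1) d)
  set cB : Mon (N + 1) d → MvPolynomial σ ℂ := par (fun i => X (Sum.inl i))
    (fun i => X (Sum.inr (Sum.inl i))) (fun α => X (Sum.inr (Sum.inr α))) with hcB
  have hev : ∀ (S : MvPolynomial (Mon (N + 1) d) ℂ) (ω : σ → ℂ), eval ω (aeval cB S) =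
      eval (par (fun i => ω (Sum.inl i)) (fun i => ω (Sum.inr (Sum.inl i)))
        (fun α => ω (Sum.inr (Sum.inr α)))) S := by
    intro S ω
    have h1 : eval ω (aeval cB S) = eval (fun α => eval ω (cB α)) S := by
      rw [aeval_def, ← coe_eval₂Hom, MvPolynomial.eval, ← RingHom.comp_apply,
        MvPolynomial.comp_eval₂Hom]
      congr 1
      apply MvPolynomial.ringHom_ext
      · intro r; simp
      · intro i; simp
    rw [h1]
    congr 1
    congr 1
    funext α
    rw [hcB, par_map]
    simp
  have h0 : aeval cB P * aeval cB Q = 0 := by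
    rw [← map_mul]
    apply MvPolynomial.funext
    intro ω
    rw [hev, map_zero]
    exact h _ (degenerate_par hd _ _ _)
  have hfin : ∀ S : MvPolynomial (Mon (N + 1) d) ℂ, aeval cB S = 0 →
      ∀ c, ¬ Nondegenerate (form c) → eval c S = 0 := by
    intro S hS c hc
    obtain ⟨p, l, hpl⟩ := exists_par hd c hc
    have h1 := hev S (Sum.elim p (Sum.elim l c))
    rw [hS, map_zero] at h1
    simp only [Sum.elim_inl, Sum.elim_inr] at h1
    rw [hpl] at h1
    exact h1.symm
  rcases mul_eq_zero.1 h0 with h1 | h1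
  · exact Or.inl (hfin P h1)
  · exact Or.inr (hfin Q h1)

end Pool.Agent.Helper1K1.AF
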